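import Pool.Agent.H.MP_df7994_gt.Euler

/-!
# Closed subgroups of `ℝ⁴` containing `ℤ⁴` (MP_df7994_gt)
-/

set_option autoImplicit false

namespace Pool.Agent.H.MP_df7994_gt

open Set Topology Filter

/-- A closed subgroup with arbitrarily short nonzero elements in a closed subset `S` which is
a cone contains a line with direction in `S`. -/
theorem line_of_short (G : AddSubgroup V4) (hG : IsClosed (G : Set V4)) (L : Submodule ℝ V4)
    (h : ∀ N : ℕ, ∃ s ∈ G, s ∈ L ∧ s ≠ 0 ∧ ‖s‖ ≤ ((N : ℝ) + 1)⁻¹) :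
    ∃ v ∈ L, v ≠ 0 ∧ ∀ t : ℝ, t • v ∈ G := by
  choose s hsG hsL hs0 hsn using h
  have hpos : ∀ N, 0 < ‖s N‖ := fun N => norm_pos_iff.2 (hs0 N)
  have hu : ∀ N, ‖s N‖⁻¹ • s N ∈ Metric.sphere (0 : V4) 1 := fun N => by
    rw [mem_sphere_zero_iff_norm, norm_smul, norm_inv, norm_norm,
      inv_mul_cancel₀ (hpos N).ne']
  obtain ⟨v, hv, φ, hφ, hlim⟩ := (isCompact_sphere (0 : V4) 1).tendsto_subseq hu
  have hv1 : ‖v‖ = 1 := mem_sphere_zero_iff_norm.1 hv
  have hLc : IsClosed (L : Set V4) := Submodule.closed_of_finiteDimensional L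
  refine ⟨v, ?_, fun h0 => by rw [h0, norm_zero] at hv1; exact zero_ne_one hv1, ?_⟩
  · exact hLc.mem_of_tendsto hlim (Eventually.of_forall fun N => L.smul_mem _ (hsL _))
  · intro t
    -- `⌊t / ‖s‖⌋ • s → t • v`
    have h1 : ∀ N, (⌊t / ‖s N‖⌋ : ℤ) • s N ∈ G := fun N => G.zsmul_mem (hsG N) _
    have h2 : Tendsto (fun N => (⌊t / ‖s (φ N)‖⌋ : ℤ) • s (φ N)) atTop (𝓝 (t • v)) := by
      have h3 : Tendsto (fun N => t • (‖s (φ N)‖⁻¹ • s (φ N))) atTop (𝓝 (t • v)) :=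
        hlim.const_smul t
      have h4 : Tendsto (fun N => (⌊t / ‖s (φ N)‖⌋ : ℤ) • s (φ N) -
          t • (‖s (φ N)‖⁻¹ • s (φ N))) atTop (𝓝 0) := by
        rw [tendsto_zero_iff_norm_tendsto_zero]
        have h5 : Tendsto (fun N : ℕ => ((φ N : ℝ) + 1)⁻¹) atTop (𝓝 0) := by
          have h6 := tendsto_one_div_add_atTop_nhds_zero_nat (𝕜 := ℝ)
          have h7 : Tendsto (fun N : ℕ => ((N : ℝ) + 1)⁻¹) atTop (𝓝 0) := by
            simpa [one_div] using h6
          exact h7.comp hφ.tendsto_atTop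
        refine squeeze_zero (fun _ => norm_nonneg _) (fun N => ?_) h5
        have h8 : (⌊t / ‖s (φ N)‖⌋ : ℤ) • s (φ N) - t • (‖s (φ N)‖⁻¹ • s (φ N)) =
            ((⌊t / ‖s (φ N)‖⌋ : ℝ) - t / ‖s (φ N)‖) • s (φ N) := by
          rw [sub_smul, smul_smul, ← div_eq_mul_inv, Int.cast_smul_eq_zsmul]
        rw [h8, norm_smul]
        have h9 : ‖(⌊t / ‖s (φ N)‖⌋ : ℝ) - t / ‖s (φ N)‖‖ ≤ 1 := by
          rw [Real.norm_eq_abs, abs_le]
          constructor
          · linarith [Int.sub_one_lt_floor (t / ‖s (φ N)‖)]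
          · linarith [Int.floor_le (t / ‖s (φ N)‖)]
        calc ‖(⌊t / ‖s (φ N)‖⌋ : ℝ) - t / ‖s (φ N)‖‖ * ‖s (φ N)‖ ≤ 1 * ‖s (φ N)‖ :=
              mul_le_mul_of_nonneg_right h9 (norm_nonneg _)
          _ ≤ ((φ N : ℝ) + 1)⁻¹ := by rw [one_mul]; exact hsn _
      have h10 := h4.add h3
      simpa using h10
    exact hG.mem_of_tendsto h2 (Eventually.of_forall fun N => h1 _)

/-- among infinitely many points of the cube two are close -/
theorem two_close {ι : Type*} (x : ι → V4) (hx : ∀ i, x i ∈ cube) (_hinj : ∀ i j, x i = x j → i = j)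
    [Infinite ι] (ε : ℝ) (hε : 0 < ε) : ∃ i j, i ≠ j ∧ ‖x i - x j‖ < ε := by
  have hf := Infinite.natEmbedding ι
  obtain ⟨v, hv, φ, hφ, hlim⟩ := isCompact_cube.tendsto_subseq (fun n => hx (hf n))
  have hc := hlim.cauchySeq
  obtain ⟨N, hN⟩ := Metric.cauchySeq_iff.1 hc ε hε
  refine ⟨hf (φ N), hf (φ (N + 1)), fun h => ?_, ?_⟩
  · have h1 := hφ.injective (hf.injective h)
    omega
  · have := hN N le_rfl (N + 1) (Nat.le_succ N)
    rwa [dist_eq_norm] at this

theorem iv_add (a b : Fin 4 → ℤ) : iv (a + b) = iv a + iv b := by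
  funext m
  simp [iv]

theorem iv_sub (a b : Fin 4 → ℤ) : iv (a - b) = iv a - iv b := by
  funext m
  simp [iv]

theorem iv_zero : iv 0 = 0 := by
  funext m
  simp [iv]

/-- the integer part -/
noncomputable def ip (x : V4) : Fin 4 → ℤ := fun i => ⌊x i⌋

theorem sub_ip_mem (x : V4) : x - iv (ip x) ∈ cube := by
  unfold cube ip iv
  rw [mem_Icc]
  constructor
  · intro i
    show 0 ≤ x i - _
    linarith [Int.floor_le (x i)]
  · intro i
    show x i - _ ≤ 1
    linarith [Int.lt_floor_add_one (x i)]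

/-- Dirichlet: multiples of a vector come close to nonzero integer vectors. -/
theorem dirichlet (v : V4) (hv : v ≠ 0) (ε : ℝ) (hε : 0 < ε) :
    ∃ (t : ℝ) (q : Fin 4 → ℤ), q ≠ 0 ∧ ‖iv q - t • v‖ < ε := by
  have hvn : 0 < ‖v‖ := norm_pos_iff.2 hv
  set c : ℝ := 2 / ‖v‖ with hc
  -- the points `n c v` modulo `ℤ⁴`
  let x : ℕ → V4 := fun n => ((n : ℝ) * c) • v - iv (ip (((n : ℝ) * c) • v))
  obtain ⟨φ, a, hφ, hlim⟩ : ∃ (φ : ℕ → ℕ) (a : V4), StrictMono φ ∧
      Tendsto (x ∘ φ) atTop (𝓝 a) := by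
    obtain ⟨a, _, φ, hφ, hlim⟩ := isCompact_cube.tendsto_subseq (x := x) fun n => sub_ip_mem _
    exact ⟨φ, a, hφ, hlim⟩
  have hcs := hlim.cauchySeq
  obtain ⟨N, hN⟩ := Metric.cauchySeq_iff.1 hcs (min ε 1) (lt_min hε one_pos)
  have h1 := hN (N + 1) (Nat.le_succ N) N le_rfl
  rw [dist_eq_norm] at h1
  set m := φ N with hm
  set k := φ (N + 1) with hk
  have hmk : m < k := hφ (Nat.lt_succ_self N)
  have h2 : x k - x m = ((k : ℝ) - m) • (c • v) -
      iv (ip (((k : ℝ) * c) • v) - ip (((m : ℝ) * c) • v)) := by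
    simp only [x]
    rw [iv_sub]
    module
  have h3 : ‖iv (ip (((k : ℝ) * c) • v) - ip (((m : ℝ) * c) • v)) -
      (((k : ℝ) - m) * c) • v‖ < min ε 1 := by
    rw [← norm_neg]
    have h4 : -(iv (ip (((k : ℝ) * c) • v) - ip (((m : ℝ) * c) • v)) -
        (((k : ℝ) - m) * c) • v) = x k - x m := by
      rw [h2]
      module
    rw [h4]
    exact h1
  refine ⟨((k : ℝ) - m) * c, _, fun h0 => ?_, h3.trans_le (min_le_left _ _)⟩
  rw [h0, iv_zero, zero_sub, norm_neg, norm_smul, Real.norm_eq_abs] at h3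
  have h5 : (1 : ℝ) ≤ (k : ℝ) - m := by
    have : (m : ℝ) + 1 ≤ k := by exact_mod_cast hmk
    linarith
  have h6 : |((k : ℝ) - m) * c| * ‖v‖ = 2 * ((k : ℝ) - m) := by
    rw [abs_of_nonneg (by positivity), hc]
    field_simp
  rw [h6] at h3
  have h7 := h3.trans_le (min_le_right _ _)
  linarith

/-- A closed subgroup of `ℝ⁴` which contains `ℤ⁴` and a line contains a rational line. -/
theorem rational_line (G : AddSubgroup V4) (hG : IsClosed (G : Set V4)) (hZ : ∀ l, iv l ∈ G)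
    (v : V4) (hv : v ≠ 0) (hvG : ∀ t : ℝ, t • v ∈ G) :
    ∃ q : Fin 4 → ℤ, q ≠ 0 ∧ ∀ t : ℝ, t • iv q ∈ G := by
  -- the largest linear subspace
  let L : Submodule ℝ V4 :=
    { carrier := {u | ∀ t : ℝ, t • u ∈ G}
      add_mem' := fun {a b} ha hb t => by
        rw [smul_add]
        exact G.add_mem (ha t) (hb t)
      zero_mem' := fun t => by
        rw [smul_zero]
        exact G.zero_mem
      smul_mem' := fun c u hu t => by
        rw [smul_smul]
        exact hu _ }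
  have hL : ∀ u, u ∈ L ↔ ∀ t : ℝ, t • u ∈ G := fun u => Iff.rfl
  by_contra hcon
  push Not at hcon
  have hno : ∀ q : Fin 4 → ℤ, q ≠ 0 → iv q ∉ L := fun q hq h => by
    obtain ⟨t, ht⟩ := hcon q hq
    exact ht (h t)
  obtain ⟨L', hLL'⟩ := Submodule.exists_isCompl L
  -- the projection to `L'` along `L`
  let P : V4 →ₗ[ℝ] V4 := L'.subtype ∘ₗ (L'.projectionOnto L hLL'.symm)
  have hPL : ∀ w, w - P w ∈ L := by
    intro w
    have h1 : P (w - P w) = 0 := by
      rw [map_sub]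
      have h2 : P (P w) = P w := by
        show (L'.projectionOnto L hLL'.symm (P w) : V4) = _
        have h3 : P w = ((L'.projectionOnto L hLL'.symm w : L') : V4) := rfl
        rw [h3, Submodule.projectionOnto_apply_left]
      rw [h2, sub_self]
    have h4 : L'.projectionOnto L hLL'.symm (w - P w) = 0 := by
      apply Subtype.ext
      exact h1
    rwa [Submodule.projectionOnto_apply_eq_zero_iff] at h4
  have hPL' : ∀ w, P w ∈ L' := fun w => (L'.projectionOnto L hLL'.symm w).2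
  have hPc : Continuous P := LinearMap.continuous_of_finiteDimensional P
  obtain ⟨C, hC0, hC⟩ : ∃ C : ℝ, 0 < C ∧ ∀ w, ‖P w‖ ≤ C * ‖w‖ := by
    obtain ⟨C, hC⟩ : ∃ C : ℝ, ∀ w, ‖P w‖ ≤ C * ‖w‖ :=
      ⟨‖LinearMap.toContinuousLinearMap P‖, fun w =>
        (LinearMap.toContinuousLinearMap P).le_opNorm w⟩
    refine ⟨max C 1, lt_max_of_lt_right one_pos, fun w => (hC w).trans ?_⟩
    exact mul_le_mul_of_nonneg_right (le_max_left _ _) (norm_nonneg _)
  have hshort : ∀ N : ℕ, ∃ s ∈ G, s ∈ L' ∧ s ≠ 0 ∧ ‖s‖ ≤ ((N : ℝ) + 1)⁻¹ := by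
    intro N
    obtain ⟨t, q, hq, hw⟩ := dirichlet v hv (((N : ℝ) + 1)⁻¹ / C) (by positivity)
    set w := iv q - t • v with hwdef
    have hwG : w ∈ G := G.sub_mem (hZ q) (hvG t)
    refine ⟨P w, ?_, hPL' w, fun h0 => ?_, ?_⟩
    · have h1 : P w = w - (w - P w) := by abel
      rw [h1]
      refine G.sub_mem hwG ?_
      have h2 := (hL _).1 (hPL w) 1
      rwa [one_smul] at h2
    · have h1 := hPL w
      rw [h0, sub_zero] at h1
      apply hno q hq
      have h2 : iv q = w + t • v := by rw [hwdef]; abel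
      rw [h2]
      exact L.add_mem h1 (L.smul_mem t hvG)
    · refine (hC w).trans ?_
      have h1 : C * ‖w‖ ≤ C * (((N : ℝ) + 1)⁻¹ / C) :=
        mul_le_mul_of_nonneg_left hw.le hC0.le
      refine h1.trans (le_of_eq ?_)
      field_simp
  obtain ⟨u, huL', hu0, hu⟩ := line_of_short G hG L' hshort
  have h1 : u ∈ L ⊓ L' := ⟨hu, huL'⟩
  rw [hLL'.inf_eq_bot, Submodule.mem_bot] at h1
  exact hu0 h1

end Pool.Agent.H.MP_df7994_gt
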