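import Pool.Agent.H.MP_df7994_gt.Dir
import Pool.Agent.H.MP_df7994_gt.Sub

/-!
# Periodic matrix functions with infinitely many affine symmetries (MP_df7994_gt)
-/

set_option autoImplicit false

namespace Pool.Agent.H.MP_df7994_gt

open Set Topology Filter Matrix

/-- integer matrices -/
abbrev Z4 := Matrix (Fin 4) (Fin 4) ℤ

/-- an integer matrix as a real matrix -/
def rm (A : Z4) : M4 := A.map (fun z : ℤ => (z : ℝ))

/-- the inverse of an integer matrix of determinant `±1` -/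
def inv4 (A : Z4) : Z4 := A.det • A.adjugate

theorem inv4_mul {A : Z4} (h : A.det = 1 ∨ A.det = -1) : inv4 A * A = 1 := by
  unfold inv4
  rw [smul_mul_assoc, adjugate_mul, smul_smul]
  rcases h with h | h <;> rw [h] <;> simp

theorem mul_inv4 {A : Z4} (h : A.det = 1 ∨ A.det = -1) : A * inv4 A = 1 := by
  unfold inv4
  rw [mul_smul_comm, mul_adjugate, smul_smul]
  rcases h with h | h <;> rw [h] <;> simp

theorem rm_mul (A B : Z4) : rm (A * B) = rm A * rm B := by
  ext i j
  simp [rm, Matrix.mul_apply]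

theorem rm_one : rm 1 = 1 := by
  ext i j
  by_cases h : i = j <;> simp [rm, Matrix.one_apply, h]

theorem inv4_bound {A : Z4} (h : A.det = 1 ∨ A.det = -1) {R : ℝ} (hR : 1 ≤ R)
    (hA : ∀ i j, |((A i j : ℤ) : ℝ)| ≤ R) (i j : Fin 4) : |rm (inv4 A) i j| ≤ 24 * R ^ 4 := by
  have h1 : |rm (inv4 A) i j| = |((A.adjugate i j : ℤ) : ℝ)| := by
    unfold rm inv4
    rw [Matrix.map_apply, Matrix.smul_apply]
    rcases h with h | h <;> rw [h] <;> simp
  rw [h1, adjugate_apply]
  have h2 : (((A.updateRow j (Pi.single i 1)).det : ℤ) : ℝ) =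
      ((A.updateRow j (Pi.single i 1)).map (fun z : ℤ => (z : ℝ))).det := by
    have := (Int.castRingHom ℝ).map_det (A.updateRow j (Pi.single i 1))
    simpa using this
  rw [h2]
  have h3 := Matrix.det_le (A := (A.updateRow j (Pi.single i 1)).map (fun z : ℤ => (z : ℝ)))
    (abv := AbsoluteValue.abs) (x := R) (fun k l => ?_)
  · have h4 : (Nat.factorial (Fintype.card (Fin 4))) = 24 := by decide
    rw [h4] at h3
    simpa [Fintype.card_fin] using h3
  · show |((A.updateRow j (Pi.single i 1) k l : ℤ) : ℝ)| ≤ R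
    rw [Matrix.updateRow_apply]
    split_ifs with hk
    · by_cases hl : l = i
      · subst hl
        simpa using hR
      · rw [Pi.single_eq_of_ne hl]
        simp
        linarith
    · exact hA k l

/-- `X ↦ P X Q` on matrices as functions -/
def cj (P Q : M4) : (Fin 4 → Fin 4 → ℝ) →ₗ[ℝ] (Fin 4 → Fin 4 → ℝ) where
  toFun X := fun i j => ∑ r, ∑ s, P i r * X r s * Q s j
  map_add' X Y := by
    funext i j
    simp only [Pi.add_apply]
    rw [← Finset.sum_add_distrib]
    refine Finset.sum_congr rfl fun r _ => ?_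
    rw [← Finset.sum_add_distrib]
    refine Finset.sum_congr rfl fun s _ => ?_
    ring
  map_smul' c X := by
    funext i j
    simp only [Pi.smul_apply, smul_eq_mul, RingHom.id_apply]
    rw [Finset.mul_sum]
    refine Finset.sum_congr rfl fun r _ => ?_
    rw [Finset.mul_sum]
    refine Finset.sum_congr rfl fun s _ => ?_
    ring

theorem cj_apply (P Q : M4) (X : M4) :
    cj P Q (fun i j => X i j) = fun i j => (P * X * Q) i j := by
  funext i j
  show ∑ r, ∑ s, P i r * X r s * Q s j = _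
  rw [Matrix.mul_apply, Finset.sum_comm]
  refine Finset.sum_congr rfl fun s _ => ?_
  rw [Matrix.mul_apply, Finset.sum_mul]

theorem cj_norm {P Q : M4} {c : ℝ} (hc : 0 ≤ c) (hP : ∀ i j, |P i j| ≤ c) (hQ : ∀ i j, |Q i j| ≤ c)
    (X : Fin 4 → Fin 4 → ℝ) : ‖cj P Q X‖ ≤ 16 * c ^ 2 * ‖X‖ := by
  have h0 : 0 ≤ 16 * c ^ 2 * ‖X‖ := by positivity
  rw [pi_norm_le_iff_of_nonneg h0]
  intro i
  rw [pi_norm_le_iff_of_nonneg h0]
  intro j
  show ‖∑ r, ∑ s, P i r * X r s * Q s j‖ ≤ _
  have h1 : ∀ r s, ‖P i r * X r s * Q s j‖ ≤ c ^ 2 * ‖X‖ := by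
    intro r s
    rw [norm_mul, norm_mul, Real.norm_eq_abs, Real.norm_eq_abs (Q s j)]
    have h2 : ‖X r s‖ ≤ ‖X‖ := (norm_le_pi_norm (X r) s).trans (norm_le_pi_norm X r)
    calc |P i r| * ‖X r s‖ * |Q s j| ≤ c * ‖X‖ * c := by
          refine mul_le_mul (mul_le_mul (hP _ _) h2 (norm_nonneg _) hc) (hQ _ _) (abs_nonneg _)
            (by positivity)
      _ = c ^ 2 * ‖X‖ := by ring
  calc ‖∑ r, ∑ s, P i r * X r s * Q s j‖ ≤ ∑ r : Fin 4, ∑ s : Fin 4, c ^ 2 * ‖X‖ :=
        (norm_sum_le _ _).trans (Finset.sum_le_sum fun r _ =>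
          (norm_sum_le _ _).trans (Finset.sum_le_sum fun s _ => h1 r s))
    _ = 16 * c ^ 2 * ‖X‖ := by
        simp only [Finset.sum_const, Finset.card_univ, Fintype.card_fin, nsmul_eq_mul]
        push_cast
        ring

/-- the affine map `x ↦ A x + b` -/
def aff (A : Z4) (b : V4) (x : V4) : V4 := rm A *ᵥ x + b

theorem aff_surj {A : Z4} (h : A.det = 1 ∨ A.det = -1) (b y : V4) : ∃ x, aff A b x = y := by
  refine ⟨rm (inv4 A) *ᵥ (y - b), ?_⟩
  unfold aff
  rw [Matrix.mulVec_mulVec, ← rm_mul, mul_inv4 h, rm_one, Matrix.one_mulVec]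
  abel

/-- chain rule for directional derivatives and affine maps -/
theorem dd_affine {E : Type*} [NormedAddCommGroup E] [NormedSpace ℝ E] {F : V4 → E}
    (hs : ContDiff ℝ ((⊤ : ℕ∞) : WithTop ℕ∞) F) (A : Z4) (b : V4) (C : E →L[ℝ] E)
    (hF : ∀ x, F (aff A b x) = C (F x)) (n : ℕ) (e x : V4) :
    dd n F (rm A *ᵥ e) (aff A b x) = C (dd n F e x) := by
  let L : V4 →L[ℝ] V4 := LinearMap.toContinuousLinearMap (Matrix.mulVecLin (rm A))
  have hL : ∀ z, L z = rm A *ᵥ z := fun z => rfl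
  have h1 : iteratedFDeriv ℝ n (fun x => F (L x + b)) x =
      (iteratedFDeriv ℝ n F (L x + b)).compContinuousLinearMap fun _ => L := by
    have h2 := L.iteratedFDeriv_comp_right (f := fun y => F (y + b)) (x := x)
      (hf := (hs.comp (contDiff_id.add contDiff_const)).of_le (m := (n : WithTop ℕ∞))
        (by exact_mod_cast le_top)) le_rfl
    rw [iteratedFDeriv_comp_add_right] at h2
    exact h2
  have h3 : (fun x => F (L x + b)) = fun x => C (F x) := by
    funext z
    exact hF z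
  have h4 : iteratedFDeriv ℝ n (fun x => C (F x)) x =
      C.compContinuousMultilinearMap (iteratedFDeriv ℝ n F x) :=
    C.iteratedFDeriv_comp_left (hs.contDiffAt.of_le (m := (n : WithTop ℕ∞))
      (by exact_mod_cast le_top)) le_rfl
  rw [h3, h4] at h1
  have h5 := congrArg (fun T : ContinuousMultilinearMap ℝ (fun _ : Fin n => V4) E =>
    T fun _ => e) h1
  unfold dd
  exact h5.symm

theorem finite_bdd (N : ℕ) : {A : Z4 | ∀ i j, |A i j| ≤ (N : ℤ)}.Finite := by
  have h1 : {A : Z4 | ∀ i j, |A i j| ≤ (N : ℤ)} ⊆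
      Set.pi univ fun _ : Fin 4 => Set.pi univ fun _ : Fin 4 => Icc (-(N : ℤ)) N := by
    intro A hA i _ j _
    exact abs_le.1 (hA i j)
  exact (Set.Finite.pi' fun _ => Set.Finite.pi' fun _ => Set.finite_Icc _ _).subset
    fun A hA i j => abs_le.1 (hA i j)

/-- A smooth periodic matrix function with infinitely many affine symmetries is invariant under
the translations in some direction. -/
theorem line_of_infinite {F : V4 → Fin 4 → Fin 4 → ℝ}
    (hs : ContDiff ℝ ((⊤ : ℕ∞) : WithTop ℕ∞) F) (hp : Per F) (S : Set (Z4 × V4))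
    (hS : S.Infinite) (hb : ∀ p ∈ S, p.2 ∈ cube) (hdet : ∀ p ∈ S, p.1.det = 1 ∨ p.1.det = -1)
    (P Q : Z4 → M4)
    (hPQ : ∀ p ∈ S, ∀ R : ℝ, 1 ≤ R → (∀ i j, |((p.1 i j : ℤ) : ℝ)| ≤ R) →
      (∀ i j, |P p.1 i j| ≤ 24 * R ^ 4) ∧ ∀ i j, |Q p.1 i j| ≤ 24 * R ^ 4)
    (hF : ∀ p ∈ S, ∀ x, F (aff p.1 p.2 x) = cj (P p.1) (Q p.1) (F x)) :
    ∃ v : V4, v ≠ 0 ∧ ∀ x (t : ℝ), F (x + t • v) = F x := by
  by_cases hfin : (Prod.fst '' S).Finite
  · -- finitely many linear parts: short translations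
    obtain ⟨A, hA⟩ : ∃ A : Z4, {b : V4 | (A, b) ∈ S}.Infinite := by
      by_contra hcon
      push Not at hcon
      apply hS
      have h1 : S ⊆ ⋃ A ∈ Prod.fst '' S, (fun b : V4 => (A, b)) '' {b : V4 | (A, b) ∈ S} := by
        intro p hp
        simp only [mem_iUnion]
        exact ⟨p.1, ⟨p, hp, rfl⟩, p.2, hp, rfl⟩
      refine (hfin.biUnion fun A _ => ?_).subset h1
      exact (hcon A).image _
    let G : AddSubgroup V4 :=
      { carrier := {s | ∀ x, F (x + s) = F x}
        add_mem' := fun {a b} ha hb x => by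
          rw [← add_assoc, hb, ha]
        zero_mem' := fun x => by rw [add_zero]
        neg_mem' := fun {a} ha x => by
          have := ha (x + -a)
          rw [neg_add_cancel_right] at this
          exact this.symm }
    have hG : IsClosed (G : Set V4) := by
      have : (G : Set V4) = ⋂ x, {s | F (x + s) = F x} := by
        ext s
        simp only [mem_iInter]
        rfl
      rw [this]
      exact isClosed_iInter fun x => isClosed_eq
        (hs.continuous.comp (continuous_const.add continuous_id)) continuous_const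
    have hAinf : Infinite {b : V4 | (A, b) ∈ S} := hA.to_subtype
    have hshort : ∀ N : ℕ, ∃ s ∈ G, s ∈ (⊤ : Submodule ℝ V4) ∧ s ≠ 0 ∧ ‖s‖ ≤ ((N : ℝ) + 1)⁻¹ := by
      intro N
      obtain ⟨b, b', hne, hlt⟩ := two_close (fun b : {b : V4 | (A, b) ∈ S} => (b : V4))
        (fun b => hb _ b.2) (fun _ _ h => Subtype.ext h) (((N : ℝ) + 1)⁻¹) (by positivity)
      refine ⟨(b : V4) - b', ?_, trivial, ?_, hlt.le⟩
      · intro x
        obtain ⟨z, hz⟩ := aff_surj (hdet _ b'.2) (b' : V4) x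
        have h1 : x + ((b : V4) - b') = aff A b z := by
          rw [← hz]
          unfold aff
          abel
        have h2 := hF _ b.2 z
        have h3 := hF _ b'.2 z
        simp only at h2 h3 hz
        rw [h1, h2, ← h3, hz]
      · intro h0
        exact hne (Subtype.ext (sub_eq_zero.1 h0))
    obtain ⟨v, _, hv0, hv⟩ := line_of_short G hG ⊤ hshort
    exact ⟨v, hv0, fun x t => hv t x⟩
  · -- long vectors
    obtain ⟨B, hB0, hB⟩ := iter_bdd hs hp 9
    refine direction_of_long hs hp 8 (16 * 24 ^ 2 * B) fun N => ?_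
    obtain ⟨A, ⟨p, hpS, hpA⟩, hAN⟩ : ∃ A ∈ Prod.fst '' S, A ∉ {A : Z4 | ∀ i j, |A i j| ≤ (N : ℤ)} :=
      Set.Infinite.exists_notMem_finite hfin (finite_bdd N)
    -- the largest entry
    obtain ⟨⟨i₀, j₀⟩, _, hmax⟩ := Finset.exists_max_image (Finset.univ : Finset (Fin 4 × Fin 4))
      (fun ij => |A ij.1 ij.2|) Finset.univ_nonempty
    have hmax' : ∀ i j, |A i j| ≤ |A i₀ j₀| := fun i j => hmax (i, j) (Finset.mem_univ _)
    have hN : (N : ℤ) < |A i₀ j₀| := by
      by_contra hcon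
      exact hAN fun i j => (hmax' i j).trans (not_lt.1 hcon)
    set R : ℝ := |((A i₀ j₀ : ℤ) : ℝ)| with hR
    have hRN : (N : ℝ) < R := by
      have : ((N : ℤ) : ℝ) < ((|A i₀ j₀| : ℤ) : ℝ) := by exact_mod_cast hN
      rw [hR]
      push_cast at this
      exact this
    have hR1 : 1 ≤ R := by
      have h1 : (1 : ℤ) ≤ |A i₀ j₀| := by
        have : (0 : ℤ) ≤ N := Int.natCast_nonneg N
        omega
      have : ((1 : ℤ) : ℝ) ≤ ((|A i₀ j₀| : ℤ) : ℝ) := by exact_mod_cast h1
      rw [hR]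
      push_cast at this
      exact this
    have hRmax : ∀ i j, |((A i j : ℤ) : ℝ)| ≤ R := fun i j => by
      have : ((|A i j| : ℤ) : ℝ) ≤ ((|A i₀ j₀| : ℤ) : ℝ) := by exact_mod_cast hmax' i j
      rw [hR]
      push_cast at this
      exact this
    let w : V4 := rm A *ᵥ (Pi.single j₀ 1)
    have hw : ∀ i, w i = ((A i j₀ : ℤ) : ℝ) := fun i => by
      simp only [w]
      rw [Matrix.mulVec_single_one]
      rfl
    have hwn : ‖w‖ = R := by
      apply le_antisymm
      · rw [pi_norm_le_iff_of_nonneg (by linarith)]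
        intro i
        rw [hw, Real.norm_eq_abs]
        exact hRmax i j₀
      · have := norm_le_pi_norm w i₀
        rwa [hw, Real.norm_eq_abs] at this
    refine ⟨w, by rw [hwn]; exact hRN, fun y => ?_⟩
    subst hpA
    obtain ⟨x, hx⟩ := aff_surj (hdet p hpS) p.2 y
    obtain ⟨hP, hQ⟩ := hPQ p hpS R hR1 hRmax
    have h1 := dd_affine hs p.1 p.2 (LinearMap.toContinuousLinearMap (cj (P p.1) (Q p.1)))
      (fun x => hF p hpS x) 9 (Pi.single j₀ 1) x
    rw [hx] at h1
    show ‖dd 9 F w y‖ ≤ _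
    rw [h1, hwn]
    show ‖cj (P p.1) (Q p.1) (dd 9 F (Pi.single j₀ 1) x)‖ ≤ _
    have h2 := cj_norm (by positivity) hP hQ (dd 9 F (Pi.single j₀ 1) x)
    have h3 : ‖dd 9 F (Pi.single j₀ 1) x‖ ≤ B := by
      unfold dd
      refine (ContinuousMultilinearMap.le_opNorm _ _).trans ?_
      rw [Finset.prod_const, Finset.card_univ, Fintype.card_fin]
      have h4 : ‖(Pi.single j₀ (1 : ℝ) : V4)‖ = 1 := by
        rw [Pi.norm_single, norm_one]
      rw [h4, one_pow, mul_one]
      exact hB x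
    calc _ ≤ 16 * (24 * R ^ 4) ^ 2 * ‖dd 9 F (Pi.single j₀ 1) x‖ := h2
      _ ≤ 16 * (24 * R ^ 4) ^ 2 * B := mul_le_mul_of_nonneg_left h3 (by positivity)
      _ = 16 * 24 ^ 2 * B * R ^ 8 := by ring

end Pool.Agent.H.MP_df7994_gt
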