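import Pool.Agent.H.MP_df7994_gt.Main
import Pool.Agent.H.MP_df7994_gt.Sub

/-!
# Averages in an integer direction and tamed symmetric structures (MP_df7994_gt)
-/

set_option autoImplicit false

namespace Pool.Agent.H.MP_df7994_gt

open Set Topology Filter MeasureTheory

section Avg

variable {E : Type*} [NormedAddCommGroup E] [NormedSpace ℝ E] [CompleteSpace E]

/-- the average over the segment `[x, x + q]` -/
noncomputable def avg (q : V4) (F : V4 → E) (x : V4) : E := ∫ t in (0 : ℝ)..1, F (x + t • q)

omit [NormedSpace ℝ E] [CompleteSpace E] in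
theorem cont_line {F : V4 → E} (hc : Continuous F) (q : V4) :
    Continuous (Function.uncurry fun (x : V4) (t : ℝ) => F (x + t • q)) := by
  have h1 : Continuous fun p : V4 × ℝ => p.1 + p.2 • q :=
    continuous_fst.add (continuous_snd.smul continuous_const)
  exact hc.comp h1

theorem avg_continuous {F : V4 → E} (hc : Continuous F) (q : V4) : Continuous (avg q F) :=
  intervalIntegral.continuous_parametric_intervalIntegral_of_continuous' (cont_line hc q) 0 1

omit [NormedSpace ℝ E] [CompleteSpace E] in
theorem norm_per_bdd {F : V4 → E} (hc : Continuous F) (hp : Per F) : ∃ B : ℝ, ∀ x, ‖F x‖ ≤ B := by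
  obtain ⟨B, hB⟩ := per_bdd (f := fun y => ‖F y‖) hc.norm (fun x l => by simp only [hp x l])
  refine ⟨B, fun y => ?_⟩
  have := hB y
  rwa [abs_of_nonneg (norm_nonneg _)] at this

omit [CompleteSpace E] in
theorem per_fderiv {F : V4 → E} (hp : Per F) : Per (fderiv ℝ F) := by
  intro x l
  have h1 : (fun z => F (z + iv l)) = F := by
    funext z
    exact hp z l
  have h2 := fderiv_comp_add_right (𝕜 := ℝ) (f := F) (x := x) (iv l)
  rw [h1] at h2
  exact h2.symm

theorem avg_hasFDerivAt {F : V4 → E} (hs : ContDiff ℝ 1 F) (hp : Per F) (q x : V4) :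
    HasFDerivAt (avg q F) (avg q (fderiv ℝ F) x) x := by
  have hcf : Continuous (fderiv ℝ F) := hs.continuous_fderiv one_ne_zero
  obtain ⟨B, hB⟩ := norm_per_bdd hcf (per_fderiv hp)
  have hl : ∀ (y : V4), Continuous fun t : ℝ => y + t • q := fun y =>
    continuous_const.add (continuous_id.smul continuous_const)
  refine intervalIntegral.hasFDerivAt_integral_of_dominated_of_fderiv_le
    (F := fun (x : V4) (t : ℝ) => F (x + t • q))
    (F' := fun (x : V4) (t : ℝ) => fderiv ℝ F (x + t • q)) (bound := fun _ => B)
    (s := univ) univ_mem ?_ ?_ ?_ ?_ ?_ ?_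
  · exact Eventually.of_forall fun y => (hs.continuous.comp (hl y)).aestronglyMeasurable
  · exact (hs.continuous.comp (hl x)).intervalIntegrable _ _
  · exact (hcf.comp (hl x)).aestronglyMeasurable
  · exact Eventually.of_forall fun t _ y _ => hB _
  · exact intervalIntegrable_const
  · refine Eventually.of_forall fun t _ y _ => ?_
    have h1 : HasFDerivAt F (fderiv ℝ F (y + t • q)) (y + t • q) :=
      ((hs.differentiable one_ne_zero) _).hasFDerivAt
    have h2 : HasFDerivAt (fun z : V4 => z + t • q) (ContinuousLinearMap.id ℝ V4) y :=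
      (hasFDerivAt_id y).add_const _
    have h3 := h1.comp y h2
    rw [ContinuousLinearMap.comp_id] at h3
    exact h3

end Avg

universe u

theorem avg_contDiff_nat (q : V4) (n : ℕ) : ∀ {E : Type u} [NormedAddCommGroup E]
    [NormedSpace ℝ E] [CompleteSpace E] {F : V4 → E}, ContDiff ℝ n F → Per F →
    ContDiff ℝ n (avg q F) := by
  induction n with
  | zero =>
    intro E _ _ _ F hF _
    have : ContDiff ℝ (0 : WithTop ℕ∞) (avg q F) :=
      contDiff_zero.2 (avg_continuous ((contDiff_zero (𝕜 := ℝ)).1 (by simpa using hF)) q)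
    simpa using this
  | succ n ih =>
    intro E _ _ _ F hF hp
    have hF' : ContDiff ℝ ((n : WithTop ℕ∞) + 1) F := by simpa using hF
    have h1 : ContDiff ℝ ((n : WithTop ℕ∞) + 1) (avg q F) := by
      rw [contDiff_succ_iff_hasFDerivAt]
      refine ⟨avg q (fderiv ℝ F), ih (hF'.fderiv_right le_rfl) (per_fderiv hp), fun x => ?_⟩
      exact avg_hasFDerivAt (hF'.of_le (by simp)) hp q x
    simpa using h1

theorem avg_contDiff {E : Type u} [NormedAddCommGroup E] [NormedSpace ℝ E] [CompleteSpace E]
    {F : V4 → E} (hs : ContDiff ℝ ((⊤ : ℕ∞) : WithTop ℕ∞) F) (hp : Per F) (q : V4) :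
    ContDiff ℝ ((⊤ : ℕ∞) : WithTop ℕ∞) (avg q F) := by
  rw [contDiff_infty] at hs ⊢
  exact fun n => avg_contDiff_nat q n (hs n) hp

theorem avg_per {E : Type*} [NormedAddCommGroup E] [NormedSpace ℝ E] {F : V4 → E}
    (hp : Per F) (q : V4) : Per fun x => ∫ t in (0 : ℝ)..1, F (x + t • q) := by
  intro x l
  refine intervalIntegral.integral_congr fun t _ => ?_
  have h1 : x + iv l + t • q = x + t • q + iv l := by abel
  simp only [h1, hp _ l]

/-- Let `Y` be a vector field invariant in the integer direction `q` with `α(q, Y) > 0`. The average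
`η` of `ι_q α` over the translations in the direction `q` is closed and `η(Y) > 0`. -/
theorem closed_average {α : V4 → M4}
    (hs : ∀ i j, ContDiff ℝ ((⊤ : ℕ∞) : WithTop ℕ∞) (fun x => α x i j))
    (hα : ∀ x i j, α x i j = - α x j i) (hp : Per α)
    (hcl : ∀ x i j k, fderiv ℝ (fun y => α y j k) x (Pi.single i 1) +
      fderiv ℝ (fun y => α y k i) x (Pi.single j 1) +
      fderiv ℝ (fun y => α y i j) x (Pi.single k 1) = 0)
    (q : Fin 4 → ℤ) (Y : V4 → V4) (hY : ∀ x (t : ℝ), Y (x + t • iv q) = Y x)
    (hpos : ∀ x, 0 < ∑ j, contr α (iv q) x j * Y x j) :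
    ∃ η : V4 → V4, (∀ j, ContDiff ℝ ((⊤ : ℕ∞) : WithTop ℕ∞) (fun x => η x j)) ∧ Per η ∧
      (∀ x i j, fderiv ℝ (fun y => η y j) x (Pi.single i 1) =
        fderiv ℝ (fun y => η y i) x (Pi.single j 1)) ∧
      (∀ x, ∑ j, η x j * iv q j = 0) ∧ ∀ x, 0 < ∑ j, η x j * Y x j := by
  have hpe : ∀ i j, Per fun x => α x i j := fun i j x l => by
    show α (x + iv l) i j = α x i j
    rw [hp x l]
  have hc1 : ∀ i j, ContDiff ℝ 1 fun x => α x i j := fun i j => (hs i j).of_le (by simp)
  have hli : ∀ i j x, Continuous fun t : ℝ => α (x + t • iv q) i j := fun i j x =>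
    (hs i j).continuous.comp (continuous_const.add (continuous_id.smul continuous_const))
  refine ⟨fun x j => ∑ a, iv q a * avg (iv q) (fun y => α y a j) x, fun j => ?_, ?_, ?_, ?_, ?_⟩
  · exact ContDiff.sum fun a _ => contDiff_const.mul (avg_contDiff (hs a j) (hpe a j) _)
  · intro x l
    funext j
    refine Finset.sum_congr rfl fun a _ => ?_
    congr 1
    exact avg_per (hpe a j) (iv q) x l
  · intro x i j
    have hd : ∀ a b, HasFDerivAt (avg (iv q) fun y => α y a b)
        (avg (iv q) (fderiv ℝ fun y => α y a b) x) x := fun a b =>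
      avg_hasFDerivAt (hc1 a b) (hpe a b) _ x
    have hη : ∀ b, fderiv ℝ (fun y => ∑ a, iv q a * avg (iv q) (fun z => α z a b) y) x =
        ∑ a, iv q a • avg (iv q) (fderiv ℝ fun z => α z a b) x := by
      intro b
      refine HasFDerivAt.fderiv ?_
      exact HasFDerivAt.fun_sum fun a _ => (hd a b).const_mul _
    have hcf : ∀ a b, Continuous (fderiv ℝ fun y => α y a b) := fun a b =>
      (hc1 a b).continuous_fderiv one_ne_zero
    have hlf : ∀ a b, Continuous fun t : ℝ => fderiv ℝ (fun y => α y a b) (x + t • iv q) :=
      fun a b => (hcf a b).comp (continuous_const.add (continuous_id.smul continuous_const))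
    have happ : ∀ a b k, avg (iv q) (fderiv ℝ fun z => α z a b) x (Pi.single k 1) =
        ∫ t in (0 : ℝ)..1, fderiv ℝ (fun z => α z a b) (x + t • iv q) (Pi.single k 1) := by
      intro a b k
      unfold avg
      exact ContinuousLinearMap.intervalIntegral_apply ((hlf a b).intervalIntegrable _ _) _
    have hlfk : ∀ a b k, Continuous fun t : ℝ =>
        fderiv ℝ (fun y => α y a b) (x + t • iv q) (Pi.single k 1) := fun a b k =>
      (hlf a b).clm_apply continuous_const
    rw [hη j, hη i]
    simp only [sum_apply, smul_apply, smul_eq_mul, happ]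
    rw [← sub_eq_zero, ← Finset.sum_sub_distrib]
    have hneg : ∀ a b k y, fderiv ℝ (fun y => α y a b) y (Pi.single k 1) =
        - fderiv ℝ (fun y => α y b a) y (Pi.single k 1) := by
      intro a b k y
      have h1 : (fun y => α y a b) = fun y => -(α y b a) := by
        funext y
        exact hα y a b
      rw [h1, fderiv_fun_neg]
      simp
    have key : ∀ a, iv q a * (∫ t in (0 : ℝ)..1, fderiv ℝ (fun z => α z a j) (x + t • iv q)
          (Pi.single i 1)) - iv q a * (∫ t in (0 : ℝ)..1, fderiv ℝ (fun z => α z a i)
          (x + t • iv q) (Pi.single j 1)) =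
        - ∫ t in (0 : ℝ)..1, iv q a * fderiv ℝ (fun z => α z j i) (x + t • iv q)
          (Pi.single a 1) := by
      intro a
      rw [← mul_sub, ← intervalIntegral.integral_sub ((hlfk a j i).intervalIntegrable _ _)
        ((hlfk a i j).intervalIntegrable _ _), ← intervalIntegral.integral_const_mul,
        ← intervalIntegral.integral_neg]
      refine intervalIntegral.integral_congr fun t _ => ?_
      have h1 := hcl (x + t • iv q) a j i
      have h2 := hneg i a j (x + t • iv q)
      rw [h2] at h1
      show iv q a * (_ - _) = -(iv q a * _)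
      linear_combination iv q a * h1
    rw [Finset.sum_congr rfl fun a _ => key a, Finset.sum_neg_distrib, neg_eq_zero,
      ← intervalIntegral.integral_finsetSum fun a _ =>
        (((hlfk j i a).const_mul _).intervalIntegrable _ _)]
    have hder : ∀ t ∈ uIcc (0 : ℝ) 1, HasDerivAt (fun t : ℝ => α (x + t • iv q) j i)
        (∑ a, iv q a * fderiv ℝ (fun z => α z j i) (x + t • iv q) (Pi.single a 1)) t := by
      intro t _
      have h1 : HasFDerivAt (fun z => α z j i) (fderiv ℝ (fun z => α z j i) (x + t • iv q))
          (x + t • iv q) := (((hc1 j i).differentiable one_ne_zero) _).hasFDerivAt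
      have h2 : HasDerivAt (fun t : ℝ => x + t • iv q) (iv q) t := by
        have := ((hasDerivAt_id t).smul_const (iv q)).const_add x
        simpa using this
      have h3 := h1.comp_hasDerivAt t h2
      have h4 : fderiv ℝ (fun z => α z j i) (x + t • iv q) (iv q) =
          ∑ a, iv q a * fderiv ℝ (fun z => α z j i) (x + t • iv q) (Pi.single a 1) := by
        have hvs : iv q = ∑ k, iv q k • (Pi.single k 1 : V4) := by
          funext k
          simp [Finset.sum_apply, Pi.single_apply]
        have h5 := congrArg (fderiv ℝ (fun z => α z j i) (x + t • iv q)) hvs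
        rw [map_sum] at h5
        rw [h5]
        refine Finset.sum_congr rfl fun k _ => ?_
        rw [map_smul, smul_eq_mul]
      rw [h4] at h3
      exact h3
    rw [intervalIntegral.integral_eq_sub_of_hasDerivAt hder
      ((continuous_finsetSum _ fun a _ => (hlfk j i a).const_mul _).intervalIntegrable _ _)]
    rw [one_smul, zero_smul, add_zero]
    have := hpe j i x q
    simp only at this
    rw [this, sub_self]
  · intro x
    have h1 : ∑ j, (∑ a, iv q a * avg (iv q) (fun y => α y a j) x) * iv q j =
        ∫ t in (0 : ℝ)..1, ∑ j, contr α (iv q) (x + t • iv q) j * iv q j := by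
      rw [intervalIntegral.integral_finsetSum fun j _ => ?_]
      · refine Finset.sum_congr rfl fun j _ => ?_
        rw [intervalIntegral.integral_mul_const]
        congr 1
        unfold contr avg
        rw [intervalIntegral.integral_finsetSum fun a _ => ?_]
        · refine Finset.sum_congr rfl fun a _ => ?_
          rw [intervalIntegral.integral_const_mul]
        · exact ((hli a j x).const_mul _).intervalIntegrable _ _
      · unfold contr
        exact ((continuous_finsetSum _ fun a _ => (hli a j x).const_mul _).mul
          continuous_const).intervalIntegrable _ _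
    rw [h1]
    have h2 : ∀ t : ℝ, ∑ j, contr α (iv q) (x + t • iv q) j * iv q j = 0 := fun t =>
      contr_orth hα (iv q) _
    simp [h2]
  · intro x
    have h1 : ∑ j, (∑ a, iv q a * avg (iv q) (fun y => α y a j) x) * Y x j =
        ∫ t in (0 : ℝ)..1, ∑ j, contr α (iv q) (x + t • iv q) j * Y x j := by
      rw [intervalIntegral.integral_finsetSum fun j _ => ?_]
      · refine Finset.sum_congr rfl fun j _ => ?_
        rw [intervalIntegral.integral_mul_const]
        congr 1
        unfold contr avg
        rw [intervalIntegral.integral_finsetSum fun a _ => ?_]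
        · refine Finset.sum_congr rfl fun a _ => ?_
          rw [intervalIntegral.integral_const_mul]
        · exact ((hli a j x).const_mul _).intervalIntegrable _ _
      · unfold contr
        exact ((continuous_finsetSum _ fun a _ => (hli a j x).const_mul _).mul
          continuous_const).intervalIntegrable _ _
    rw [h1]
    refine intervalIntegral.intervalIntegral_pos_of_pos ?_ (fun t => ?_) one_pos
    · unfold contr
      exact (continuous_finsetSum _ fun j _ => (continuous_finsetSum _ fun a _ =>
        (hli a j x).const_mul _).mul continuous_const).intervalIntegrable _ _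
    · have h2 := hpos (x + t • iv q)
      rw [hY] at h2
      exact h2

end Pool.Agent.H.MP_df7994_gt
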