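import Mathlib

/-!
# Homotopies of nondegenerate 2-forms on the four-torus (MP_df7994_gt)

2-forms on `ℝ⁴/ℤ⁴` are periodic skew-symmetric `4 × 4` matrix functions on `ℝ⁴`.
-/

set_option autoImplicit false

namespace Pool.Agent.H.MP_df7994_gt

open Set Topology

/-- `ℝ⁴` -/
abbrev V4 := Fin 4 → ℝ

/-- `4 × 4` matrices -/
abbrev M4 := Matrix (Fin 4) (Fin 4) ℝ

/-- an integer vector as a real vector -/
def iv (v : Fin 4 → ℤ) : V4 := fun m => ((v m : ℤ) : ℝ)

/-- `ℤ⁴`-periodic functions -/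
def Per {β : Type*} (f : V4 → β) : Prop := ∀ x (v : Fin 4 → ℤ), f (x + iv v) = f x

/-- homotopic through nondegenerate periodic 2-forms -/
def Hom (α β : V4 → M4) : Prop :=
  ∃ H : ℝ → V4 → M4, Continuous (fun p : ℝ × V4 => H p.1 p.2) ∧ H 0 = α ∧ H 1 = β ∧
    (∀ t ∈ Icc (0 : ℝ) 1, ∀ x i j, H t x i j = - H t x j i) ∧
    (∀ t ∈ Icc (0 : ℝ) 1, ∀ x (v : Fin 4 → ℤ), H t (x + iv v) = H t x) ∧
    (∀ t ∈ Icc (0 : ℝ) 1, ∀ x, (H t x).det ≠ 0)

theorem Hom.symm {α β : V4 → M4} (h : Hom α β) : Hom β α := by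
  obtain ⟨H, hc, h0, h1, hs, hp, hd⟩ := h
  have hI : ∀ t ∈ Icc (0 : ℝ) 1, 1 - t ∈ Icc (0 : ℝ) 1 := fun t ht =>
    ⟨by linarith [ht.2], by linarith [ht.1]⟩
  refine ⟨fun t => H (1 - t), ?_, by simpa using h1, by simpa using h0,
    fun t ht => hs _ (hI t ht), fun t ht => hp _ (hI t ht), fun t ht => hd _ (hI t ht)⟩
  exact hc.comp ((continuous_const.sub continuous_fst).prodMk continuous_snd)

theorem Hom.trans {α β γ : V4 → M4} (h : Hom α β) (h' : Hom β γ) : Hom α γ := by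
  obtain ⟨H, hc, h0, h1, hs, hp, hd⟩ := h
  obtain ⟨G, gc, g0, g1, gs, gp, gd⟩ := h'
  refine ⟨fun t => if t ≤ 1 / 2 then H (2 * t) else G (2 * t - 1), ?_, ?_, ?_, ?_, ?_, ?_⟩
  · have e : (fun p : ℝ × V4 => (if p.1 ≤ 1 / 2 then H (2 * p.1) else G (2 * p.1 - 1)) p.2) =
        fun p : ℝ × V4 => if p.1 ≤ 1 / 2 then H (2 * p.1) p.2 else G (2 * p.1 - 1) p.2 := by
      funext p
      split_ifs <;> rfl
    rw [e]
    refine Continuous.if_le ?_ ?_ continuous_fst continuous_const ?_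
    · exact hc.comp ((continuous_const.mul continuous_fst).prodMk continuous_snd)
    · exact gc.comp (((continuous_const.mul continuous_fst).sub continuous_const).prodMk
        continuous_snd)
    · intro p hp1
      have e1 : 2 * p.1 = 1 := by rw [hp1]; norm_num
      rw [e1, h1, sub_self, g0]
  · simp [h0]
  · have : ¬ ((1 : ℝ) ≤ 1 / 2) := by norm_num
    simp only [this, if_false]
    norm_num
    exact g1
  · intro t ht x i j
    by_cases h : t ≤ 1 / 2
    · simp only [h, if_true]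
      exact hs _ ⟨by linarith [ht.1], by linarith⟩ x i j
    · simp only [h, if_false]
      exact gs _ ⟨by linarith [not_le.1 h], by linarith [ht.2]⟩ x i j
  · intro t ht x v
    by_cases h : t ≤ 1 / 2
    · simp only [h, if_true]
      exact hp _ ⟨by linarith [ht.1], by linarith⟩ x v
    · simp only [h, if_false]
      exact gp _ ⟨by linarith [not_le.1 h], by linarith [ht.2]⟩ x v
  · intro t ht x
    by_cases h : t ≤ 1 / 2
    · simp only [h, if_true]
      exact hd _ ⟨by linarith [ht.1], by linarith⟩ x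
    · simp only [h, if_false]
      exact gd _ ⟨by linarith [not_le.1 h], by linarith [ht.2]⟩ x

/-- the Pfaffian -/
def pf (A : M4) : ℝ := A 0 1 * A 2 3 - A 0 2 * A 1 3 + A 0 3 * A 1 2

/-- the skew matrix with given entries -/
def sk (a b c d e f : ℝ) : M4 :=
  !![0, a, b, c; -a, 0, d, e; -b, -d, 0, f; -c, -e, -f, 0]

theorem det_sk (a b c d e f : ℝ) : (sk a b c d e f).det = (a * f - b * e + c * d) ^ 2 := by
  unfold sk
  rw [Matrix.det_succ_row_zero]
  simp [Fin.sum_univ_succ, Matrix.det_fin_three, Fin.succAbove]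
  ring

theorem eq_sk {A : M4} (h : ∀ i j, A i j = - A j i) :
    A = sk (A 0 1) (A 0 2) (A 0 3) (A 1 2) (A 1 3) (A 2 3) := by
  have hd : ∀ i, A i i = 0 := fun i => by linarith [h i i]
  ext i j
  fin_cases i <;> fin_cases j <;> simp [sk, hd] <;> exact h _ _

theorem det_skew {A : M4} (h : ∀ i j, A i j = - A j i) : A.det = pf A ^ 2 := by
  conv_lhs => rw [eq_sk h]
  rw [det_sk]
  rfl

/-- the (anti-)self-dual form with components `a, b, c` -/
def sd (s a b c : ℝ) : M4 := sk a b c (s * c) (-(s * b)) (s * a)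

theorem pf_sd (s a b c : ℝ) : pf (sd s a b c) = s * (a ^ 2 + b ^ 2 + c ^ 2) := by
  simp [pf, sd, sk]
  ring

theorem sk_skew (a b c d e f : ℝ) (i j : Fin 4) : sk a b c d e f i j = - sk a b c d e f j i := by
  fin_cases i <;> fin_cases j <;> simp [sk]

theorem continuous_sk {X : Type*} [TopologicalSpace X] {a b c d e f : X → ℝ} (ha : Continuous a)
    (hb : Continuous b) (hc : Continuous c) (hd : Continuous d) (he : Continuous e)
    (hf : Continuous f) : Continuous fun x => sk (a x) (b x) (c x) (d x) (e x) (f x) := by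
  refine continuous_matrix fun i j => ?_
  fin_cases i <;> fin_cases j <;> simp [sk] <;> fun_prop

/-- `w ∧ u` plus `s` times its Hodge dual -/
def Om (s : ℝ) (w u : V4) : M4 :=
  sd s ((w 0 * u 1 - w 1 * u 0) + s * (w 2 * u 3 - w 3 * u 2))
    ((w 0 * u 2 - w 2 * u 0) - s * (w 1 * u 3 - w 3 * u 1))
    ((w 0 * u 3 - w 3 * u 0) + s * (w 1 * u 2 - w 2 * u 1))

theorem Om_skew (s : ℝ) (w u : V4) (i j : Fin 4) : Om s w u i j = - Om s w u j i :=
  sk_skew _ _ _ _ _ _ i j

theorem pf_Om {s : ℝ} (hs : s = 1 ∨ s = -1) (w u : V4) :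
    pf (Om s w u) = s * ((∑ i, w i ^ 2) * (∑ i, u i ^ 2) - (∑ i, w i * u i) ^ 2) := by
  unfold Om
  rw [pf_sd]
  simp only [Fin.sum_univ_four]
  rcases hs with rfl | rfl <;> ring

theorem sq_pos_of_ne {u : V4} (hu : u ≠ 0) : 0 < ∑ i, u i ^ 2 := by
  refine lt_of_le_of_ne (Finset.sum_nonneg fun i _ => sq_nonneg _) fun h => hu ?_
  funext i
  have h1 := (Finset.sum_eq_zero_iff_of_nonneg (fun i _ => sq_nonneg (u i))).1 h.symm i
    (Finset.mem_univ i)
  exact pow_eq_zero_iff (two_ne_zero) |>.1 h1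

/-- `Om s v X` is nondegenerate when `v` and `X` are linearly independent -/
theorem Om_det_indep {s : ℝ} (hs : s = 1 ∨ s = -1) {v X : V4}
    (h : ¬ ∀ i j, v i * X j = v j * X i) : (Om s v X).det ≠ 0 := by
  rw [det_skew (Om_skew s v X), pf_Om hs]
  have hL : (∑ i, v i ^ 2) * (∑ i, X i ^ 2) - (∑ i, v i * X i) ^ 2 =
      (v 0 * X 1 - v 1 * X 0) ^ 2 + (v 0 * X 2 - v 2 * X 0) ^ 2 + (v 0 * X 3 - v 3 * X 0) ^ 2 +
      (v 1 * X 2 - v 2 * X 1) ^ 2 + (v 1 * X 3 - v 3 * X 1) ^ 2 +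
      (v 2 * X 3 - v 3 * X 2) ^ 2 := by
    simp only [Fin.sum_univ_four]
    ring
  rw [hL]
  have h3 : s ≠ 0 := by rcases hs with rfl | rfl <;> norm_num
  refine pow_ne_zero 2 (mul_ne_zero h3 fun h0 => h ?_)
  have q1 := sq_nonneg (v 0 * X 1 - v 1 * X 0)
  have q2 := sq_nonneg (v 0 * X 2 - v 2 * X 0)
  have q3 := sq_nonneg (v 0 * X 3 - v 3 * X 0)
  have q4 := sq_nonneg (v 1 * X 2 - v 2 * X 1)
  have q5 := sq_nonneg (v 1 * X 3 - v 3 * X 1)
  have q6 := sq_nonneg (v 2 * X 3 - v 3 * X 2)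
  have e1 : v 0 * X 1 - v 1 * X 0 = 0 := by
    rw [← sq_eq_zero_iff]; linarith
  have e2 : v 0 * X 2 - v 2 * X 0 = 0 := by
    rw [← sq_eq_zero_iff]; linarith
  have e3 : v 0 * X 3 - v 3 * X 0 = 0 := by
    rw [← sq_eq_zero_iff]; linarith
  have e4 : v 1 * X 2 - v 2 * X 1 = 0 := by
    rw [← sq_eq_zero_iff]; linarith
  have e5 : v 1 * X 3 - v 3 * X 1 = 0 := by
    rw [← sq_eq_zero_iff]; linarith
  have e6 : v 2 * X 3 - v 3 * X 2 = 0 := by
    rw [← sq_eq_zero_iff]; linarith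
  intro i j
  fin_cases i <;> fin_cases j <;> simp only [Fin.zero_eta, Fin.mk_one, Fin.reduceFinMk] <;> linarith

/-- a nonzero vector in the kernel of `u` is independent of `v`, if `u(v) ≠ 0` -/
theorem indep_of_ker {u v X : V4} (huv : ∑ i, u i * v i ≠ 0) (huX : ∑ i, u i * X i = 0)
    (hX : X ≠ 0) : ¬ ∀ i j, v i * X j = v j * X i := by
  intro h
  apply hX
  funext j
  have h1 : (∑ i, u i * v i) * X j = v j * ∑ i, u i * X i := by
    rw [Finset.sum_mul, Finset.mul_sum]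
    refine Finset.sum_congr rfl fun i _ => ?_
    linear_combination u i * h i j
  rw [huX, mul_zero] at h1
  exact (mul_eq_zero.1 h1).resolve_left huv

/-- a vector with `σ(X) ≠ 0` is independent of a nonzero vector in the kernel of `σ` -/
theorem indep_of_pos {σ v X : V4} (hσX : ∑ i, σ i * X i ≠ 0) (hσv : ∑ i, σ i * v i = 0)
    (hv : v ≠ 0) : ¬ ∀ i j, v i * X j = v j * X i := fun h =>
  indep_of_ker hσX hσv hv fun i j => by linear_combination -h i j

theorem continuous_Om {X : Type*} [TopologicalSpace X] (s : ℝ) (w : V4) {u : X → V4}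
    (hu : Continuous u) : Continuous fun x => Om s w (u x) := by
  have h : ∀ i, Continuous fun x => u x i := fun i => (continuous_apply i).comp hu
  unfold Om sd
  have h0 := h 0
  have h1 := h 1
  have h2 := h 2
  have h3 := h 3
  exact continuous_sk (by fun_prop) (by fun_prop) (by fun_prop) (by fun_prop) (by fun_prop)
    (by fun_prop)

/-- a homotopy of vector fields independent of `v` gives a homotopy of forms -/
theorem Hom_of_indep {s : ℝ} (hs : s = 1 ∨ s = -1) (v : V4) (U : ℝ → V4 → V4)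
    (hc : Continuous fun p : ℝ × V4 => U p.1 p.2)
    (hp : ∀ t ∈ Icc (0 : ℝ) 1, Per (U t))
    (h0 : ∀ t ∈ Icc (0 : ℝ) 1, ∀ x, ¬ ∀ i j, v i * U t x j = v j * U t x i) :
    Hom (fun x => Om s v (U 0 x)) (fun x => Om s v (U 1 x)) := by
  refine ⟨fun t x => Om s v (U t x), continuous_Om s v hc, rfl, rfl,
    fun t _ x i j => Om_skew s v _ i j, fun t ht x u => ?_, fun t ht x => ?_⟩
  · show Om s v (U t (x + iv u)) = Om s v (U t x)
    rw [hp t ht x u]
  · exact Om_det_indep hs (h0 t ht x)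

/-- a homotopy of nowhere zero vector fields in the kernel of `w` gives a homotopy of forms -/
theorem Hom_of_path {s : ℝ} (hs : s = 1 ∨ s = -1) {w v : V4} (hw : ∑ i, w i * v i ≠ 0)
    (U : ℝ → V4 → V4)
    (hc : Continuous fun p : ℝ × V4 => U p.1 p.2)
    (hp : ∀ t ∈ Icc (0 : ℝ) 1, Per (U t))
    (h0 : ∀ t ∈ Icc (0 : ℝ) 1, ∀ x, U t x ≠ 0)
    (hwu : ∀ t ∈ Icc (0 : ℝ) 1, ∀ x, ∑ i, w i * U t x i = 0) :
    Hom (fun x => Om s v (U 0 x)) (fun x => Om s v (U 1 x)) :=
  Hom_of_indep hs v U hc hp fun t ht x => indep_of_ker hw (hwu t ht x) (h0 t ht x)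

/-- the vector field `X` with `α X = w` -/
noncomputable def dualField (α : V4 → M4) (w : V4) (x : V4) : V4 := fun i =>
  -(∑ j, sk (α x 2 3) (-(α x 1 3)) (α x 1 2) (α x 0 3) (-(α x 0 2)) (α x 0 1) i j * w j) /
    pf (α x)

theorem dualField_spec {α : V4 → M4} (hα : ∀ x i j, α x i j = - α x j i) {x : V4}
    (hd : (α x).det ≠ 0) (w : V4) (i : Fin 4) : ∑ j, α x i j * dualField α w x j = w i := by
  have hp : pf (α x) ≠ 0 := by
    intro h
    rw [det_skew (hα x), h] at hd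
    norm_num at hd
  have hsk := eq_sk (hα x)
  have h1 : ∑ j, α x i j * dualField α w x j =
      (∑ j, α x i j * (-(∑ k, sk (α x 2 3) (-(α x 1 3)) (α x 1 2) (α x 0 3) (-(α x 0 2))
        (α x 0 1) j k * w k))) / pf (α x) := by
    rw [Finset.sum_div]
    refine Finset.sum_congr rfl fun j _ => ?_
    unfold dualField
    ring
  rw [h1, div_eq_iff hp]
  have e00 : α x 0 0 = 0 := by linarith [hα x 0 0]
  have e11 : α x 1 1 = 0 := by linarith [hα x 1 1]
  have e22 : α x 2 2 = 0 := by linarith [hα x 2 2]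
  have e33 : α x 3 3 = 0 := by linarith [hα x 3 3]
  have e10 := hα x 1 0
  have e20 := hα x 2 0
  have e30 := hα x 3 0
  have e21 := hα x 2 1
  have e31 := hα x 3 1
  have e32 := hα x 3 2
  fin_cases i <;> simp [Fin.sum_univ_four, sk, pf, e00, e11, e22, e33, e10, e20, e30, e21, e31, e32]
    <;> ring

end Pool.Agent.H.MP_df7994_gt
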