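import Pool.Agent.H.MP_df7994_gt.Euler

/-!
# Constant forms are homotopic; the homotopy to a constant form (MP_df7994_gt)
-/

set_option autoImplicit false

namespace Pool.Agent.H.MP_df7994_gt

open Set Topology

/-- constant (anti-)self-dual forms are homotopic -/
theorem const_hom {s : ℝ} (hs : s = 1 ∨ s = -1) {a b : Fin 3 → ℝ} (ha : a ≠ 0) (hb : b ≠ 0) :
    Hom (fun _ => sd s (a 0) (a 1) (a 2)) (fun _ => sd s (b 0) (b 1) (b 2)) := by
  have hr : 1 < Module.rank ℝ (Fin 3 → ℝ) := by
    rw [rank_fin_fun]
    norm_num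
  have hpc := isPathConnected_compl_singleton_of_one_lt_rank hr (0 : Fin 3 → ℝ)
  obtain ⟨γ, hγ⟩ := hpc.joinedIn a (by simpa using ha) b (by simpa using hb)
  have hc : ∀ i : Fin 3, Continuous fun p : ℝ × V4 => γ.extend p.1 i := fun i =>
    (continuous_apply i).comp (γ.continuous_extend.comp continuous_fst)
  refine ⟨fun t _ => sd s (γ.extend t 0) (γ.extend t 1) (γ.extend t 2), ?_, ?_, ?_,
    fun t _ x i j => sk_skew _ _ _ _ _ _ i j, fun t _ x v => rfl, fun t ht x => ?_⟩
  · unfold sd
    have h0 := hc 0
    have h1 := hc 1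
    have h2 := hc 2
    exact continuous_sk h0 h1 h2 (by fun_prop) (by fun_prop) (by fun_prop)
  · funext x
    simp
  · funext x
    simp
  · have hne : γ.extend t ≠ 0 := by
      rw [Path.extend_apply γ ht]
      exact hγ ⟨t, ht⟩
    have hsq : γ.extend t 0 ^ 2 + γ.extend t 1 ^ 2 + γ.extend t 2 ^ 2 ≠ 0 := by
      intro h
      apply hne
      funext i
      have h0 : γ.extend t 0 = 0 := by
        nlinarith [sq_nonneg (γ.extend t 0), sq_nonneg (γ.extend t 1), sq_nonneg (γ.extend t 2)]
      have h1 : γ.extend t 1 = 0 := by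
        nlinarith [sq_nonneg (γ.extend t 0), sq_nonneg (γ.extend t 1), sq_nonneg (γ.extend t 2)]
      have h2 : γ.extend t 2 = 0 := by
        nlinarith [sq_nonneg (γ.extend t 0), sq_nonneg (γ.extend t 1), sq_nonneg (γ.extend t 2)]
      fin_cases i
      · exact h0
      · exact h1
      · exact h2
    have hsk : ∀ i j, sd s (γ.extend t 0) (γ.extend t 1) (γ.extend t 2) i j =
        - sd s (γ.extend t 0) (γ.extend t 1) (γ.extend t 2) j i := fun i j =>
      sk_skew _ _ _ _ _ _ i j
    show (sd s (γ.extend t 0) (γ.extend t 1) (γ.extend t 2)).det ≠ 0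
    rw [det_skew hsk, pf_sd]
    have hs0 : s ≠ 0 := by rcases hs with rfl | rfl <;> norm_num
    exact pow_ne_zero 2 (mul_ne_zero hs0 hsq)

/-- the reference constant form -/
noncomputable def ref (s : ℝ) : V4 → M4 := fun _ => sd s 1 0 0

theorem Om_hom_ref {s : ℝ} (hs : s = 1 ∨ s = -1) {w p : V4}
    (hdet : (Om s w p).det ≠ 0) : Hom (fun _ => Om s w p) (ref s) := by
  have hne : ![(w 0 * p 1 - w 1 * p 0) + s * (w 2 * p 3 - w 3 * p 2),
      (w 0 * p 2 - w 2 * p 0) - s * (w 1 * p 3 - w 3 * p 1),
      (w 0 * p 3 - w 3 * p 0) + s * (w 1 * p 2 - w 2 * p 1)] ≠ (0 : Fin 3 → ℝ) := by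
    intro h
    apply hdet
    rw [det_skew (Om_skew s w p)]
    unfold Om
    rw [pf_sd]
    have h0 := congrFun h 0
    have h1 := congrFun h 1
    have h2 := congrFun h 2
    simp only [Matrix.cons_val_zero, Matrix.cons_val_one, Matrix.cons_val, Pi.zero_apply]
      at h0 h1 h2
    rw [h0, h1, h2]
    ring
  have h := const_hom hs hne (b := ![1, 0, 0]) (by
    intro h
    have := congrFun h 0
    simp at this)
  exact h

/-- contraction with a constant vector -/
def contr (α : V4 → M4) (v : V4) (x : V4) : V4 := fun j => ∑ i, v i * α x i j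

/-- the orthogonal projection along `u` -/
noncomputable def prj (u σ : V4) : V4 := fun i => σ i - ((∑ j, σ j * u j) / ∑ j, u j ^ 2) * u i

theorem prj_orth {u : V4} (hu : u ≠ 0) (σ : V4) : ∑ i, u i * prj u σ i = 0 := by
  have h := (sq_pos_of_ne hu).ne'
  have h1 : ∀ i, u i * prj u σ i = σ i * u i - ((∑ j, σ j * u j) / ∑ j, u j ^ 2) * u i ^ 2 := by
    intro i
    unfold prj
    ring
  rw [Finset.sum_congr rfl fun i _ => h1 i, Finset.sum_sub_distrib, ← Finset.mul_sum,
    div_mul_cancel₀ _ h, sub_self]

theorem prj_pair {u : V4} (σ X : V4) (hX : ∑ i, u i * X i = 0) :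
    ∑ i, prj u σ i * X i = ∑ i, σ i * X i := by
  have h1 : ∀ i, prj u σ i * X i = σ i * X i -
      ((∑ j, σ j * u j) / ∑ j, u j ^ 2) * (u i * X i) := by
    intro i
    unfold prj
    ring
  rw [Finset.sum_congr rfl fun i _ => h1 i, Finset.sum_sub_distrib, ← Finset.mul_sum, hX, mul_zero,
    sub_zero]

theorem continuous_prj (u : V4) {f : V4 → V4} (hf : Continuous f) :
    Continuous fun x => prj u (f x) := by
  have h : ∀ i, Continuous fun x => f x i := fun i => (continuous_apply i).comp hf
  refine continuous_pi fun i => ?_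
  unfold prj
  have h1 : Continuous fun x => ∑ j, f x j * u j :=
    continuous_finsetSum _ fun j _ => (h j).mul continuous_const
  exact (h i).sub ((h1.div_const _).mul continuous_const)

/-- the length -/
noncomputable def len (a : V4) : ℝ := Real.sqrt (∑ i, a i ^ 2)

theorem len_sq (a : V4) : len a ^ 2 = ∑ i, a i ^ 2 :=
  Real.sq_sqrt (Finset.sum_nonneg fun i _ => sq_nonneg _)

theorem len_pos {a : V4} (ha : a ≠ 0) : 0 < len a := Real.sqrt_pos.2 (sq_pos_of_ne ha)

theorem continuous_len {f : V4 → V4} (hf : Continuous f) : Continuous fun x => len (f x) := by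
  have h : ∀ i, Continuous fun x => f x i := fun i => (continuous_apply i).comp hf
  unfold len
  exact (continuous_finsetSum _ fun i _ => (h i).pow 2).sqrt

/-- the bisector of two vectors -/
noncomputable def bis (a b : V4) : V4 := len b • a + len a • b

theorem bis_spec {a b : V4} (ha : a ≠ 0) (hb : b ≠ 0) (hab : bis a b ≠ 0) :
    0 < ∑ i, a i * bis a b i ∧ 0 < ∑ i, b i * bis a b i := by
  have hla := len_pos ha
  have hlb := len_pos hb
  have h1 := sq_pos_of_ne hab
  have h2 : ∑ i, bis a b i ^ 2 = 2 * (len a * len b) * (len a * len b + ∑ i, a i * b i) := by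
    have e : ∀ i, bis a b i ^ 2 = len b ^ 2 * a i ^ 2 + len a ^ 2 * b i ^ 2 +
        2 * (len a * len b) * (a i * b i) := by
      intro i
      simp only [bis, Pi.add_apply, Pi.smul_apply, smul_eq_mul]
      ring
    rw [Finset.sum_congr rfl fun i _ => e i, Finset.sum_add_distrib, Finset.sum_add_distrib,
      ← Finset.mul_sum, ← Finset.mul_sum, ← Finset.mul_sum, ← len_sq, ← len_sq]
    ring
  rw [h2] at h1
  have h3 : 0 < len a * len b + ∑ i, a i * b i :=
    (pos_iff_pos_of_mul_pos h1).1 (by positivity)
  constructor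
  · have e : ∀ i, a i * bis a b i = len b * a i ^ 2 + len a * (a i * b i) := by
      intro i
      simp only [bis, Pi.add_apply, Pi.smul_apply, smul_eq_mul]
      ring
    rw [Finset.sum_congr rfl fun i _ => e i, Finset.sum_add_distrib, ← Finset.mul_sum,
      ← Finset.mul_sum, ← len_sq]
    have : len b * len a ^ 2 + len a * ∑ i, a i * b i =
        len a * (len a * len b + ∑ i, a i * b i) := by ring
    rw [this]
    exact mul_pos hla h3
  · have e : ∀ i, b i * bis a b i = len b * (a i * b i) + len a * b i ^ 2 := by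
      intro i
      simp only [bis, Pi.add_apply, Pi.smul_apply, smul_eq_mul]
      ring
    rw [Finset.sum_congr rfl fun i _ => e i, Finset.sum_add_distrib, ← Finset.mul_sum,
      ← Finset.mul_sum, ← len_sq]
    have : len b * ∑ i, a i * b i + len a * len b ^ 2 =
        len b * (len a * len b + ∑ i, a i * b i) := by ring
    rw [this]
    exact mul_pos hlb h3

/-- **Homotopy to a constant form.** Let `v` be a constant vector and `u` a constant 1-form with
`u(v) ≠ 0`, let `η` be a closed 1-form such that no combination `η + l ι_v α` with `l ≥ 0` is a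
multiple of `u` at any point. Then `α` is homotopic to a constant form. -/
theorem hom_ref {s : ℝ} (hs : s = 1 ∨ s = -1) {α : V4 → M4} (hc : Continuous α)
    (hα : ∀ x i j, α x i j = - α x j i) (hp : Per α) (hd : ∀ x, (α x).det ≠ 0)
    (hpf : ∀ x, 0 < s * pf (α x)) (v u : V4) (huv : ∑ i, u i * v i ≠ 0) (η : V4 → V4)
    (hη : ∀ i, ContDiff ℝ ((⊤ : ℕ∞) : WithTop ℕ∞) fun x => η x i) (hηp : Per η)
    (hcl : ∀ x i j, fderiv ℝ (fun y => η y j) x (Pi.single i 1) =
      fderiv ℝ (fun y => η y i) x (Pi.single j 1))
    (hne : ∀ x (l : ℝ), 0 ≤ l → ∀ m : ℝ, ∃ j, η x j + l * contr α v x j ≠ m * u j) :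
    Hom α (ref s) := by
  have hu : u ≠ 0 := by
    intro h
    apply huv
    rw [h]
    simp
  have hv : v ≠ 0 := by
    intro h
    apply huv
    rw [h]
    simp
  have hηc : Continuous η := continuous_pi fun i => (hη i).continuous
  have he : ∀ i j, Continuous fun x => α x i j := fun i j => hc.matrix_elem i j
  have hσc : Continuous (contr α v) := continuous_pi fun j =>
    continuous_finsetSum _ fun i _ => continuous_const.mul (he i j)
  have hσp : Per (contr α v) := fun x z => by
    unfold contr
    rw [hp x z]
  have hσv : ∀ x, ∑ j, contr α v x j * v j = 0 := by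
    intro x
    have h1 := mv_orth (hα x) v
    have h2 : ∑ j, contr α v x j * v j = -∑ i, mv (α x) v i * v i := by
      unfold contr mv
      rw [← Finset.sum_neg_distrib]
      refine Finset.sum_congr rfl fun j _ => ?_
      rw [← neg_mul, ← Finset.sum_neg_distrib]
      congr 1
      refine Finset.sum_congr rfl fun i _ => ?_
      rw [hα x i j]
      ring
    rw [h2, h1, neg_zero]
  -- pairing of the contraction with the dual field
  have hσX0 : ∀ x, ∑ j, contr α v x j * dualField α v x j = ∑ i, v i ^ 2 := by
    intro x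
    have h1 : ∀ j, contr α v x j * dualField α v x j =
        ∑ i, v i * (α x i j * dualField α v x j) := by
      intro j
      unfold contr
      rw [Finset.sum_mul]
      refine Finset.sum_congr rfl fun i _ => ?_
      ring
    rw [Finset.sum_congr rfl fun j _ => h1 j, Finset.sum_comm]
    refine Finset.sum_congr rfl fun i _ => ?_
    rw [← Finset.mul_sum, dualField_spec hα (hd x) v i]
    ring
  -- the two projections
  have ha : ∀ x, prj u (contr α v x) ≠ 0 := by
    intro x h0
    have h1 := hσX0 x
    have h2 : ∀ i, contr α v x i = ((∑ j, contr α v x j * u j) / ∑ j, u j ^ 2) * u i := fun i =>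
      sub_eq_zero.1 (congrFun h0 i)
    have h3 : (∑ j, contr α v x j * u j) / (∑ j, u j ^ 2) = 0 := by
      have h4 := hσv x
      rw [Finset.sum_congr rfl fun j _ => by rw [h2 j, mul_assoc], ← Finset.mul_sum] at h4
      exact (mul_eq_zero.1 h4).resolve_right huv
    have h5 : ∀ j, contr α v x j = 0 := fun j => by rw [h2 j, h3, zero_mul]
    rw [Finset.sum_congr rfl fun j _ => by rw [h5 j, zero_mul]] at h1
    rw [Finset.sum_const_zero] at h1
    exact (sq_pos_of_ne hv).ne h1
  have hb : ∀ x, prj u (η x) ≠ 0 := by
    intro x h0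
    obtain ⟨j, hj⟩ := hne x 0 le_rfl ((∑ j, η x j * u j) / ∑ j, u j ^ 2)
    apply hj
    rw [zero_mul, add_zero]
    exact sub_eq_zero.1 (congrFun h0 j)
  let X : V4 → V4 := fun x => bis (prj u (contr α v x)) (prj u (η x))
  have hX0 : ∀ x, X x ≠ 0 := by
    intro x h0
    have hla := len_pos (ha x)
    have hlb := len_pos (hb x)
    obtain ⟨j, hj⟩ := hne x (len (prj u (η x)) / len (prj u (contr α v x))) (by positivity)
      ((∑ j, η x j * u j) / (∑ j, u j ^ 2) + len (prj u (η x)) / len (prj u (contr α v x)) *
        ((∑ j, contr α v x j * u j) / ∑ j, u j ^ 2))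
    apply hj
    have h1 : len (prj u (η x)) * prj u (contr α v x) j +
        len (prj u (contr α v x)) * prj u (η x) j = 0 := congrFun h0 j
    have h2 : prj u (η x) j + len (prj u (η x)) / len (prj u (contr α v x)) *
        prj u (contr α v x) j = 0 := by
      field_simp
      linarith
    have p1 : prj u (η x) j = η x j - ((∑ j, η x j * u j) / ∑ j, u j ^ 2) * u j := rfl
    have p2 : prj u (contr α v x) j = contr α v x j -
        ((∑ j, contr α v x j * u j) / ∑ j, u j ^ 2) * u j := rfl
    generalize len (prj u (η x)) / len (prj u (contr α v x)) = r at h2 ⊢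
    rw [p1, p2] at h2
    linear_combination h2
  have hXc : Continuous X := by
    have h1 := continuous_prj u hσc
    have h2 := continuous_prj u hηc
    exact ((continuous_len h2).smul h1).add ((continuous_len h1).smul h2)
  have hXp : Per X := fun x z => by
    show bis (prj u (contr α v (x + iv z))) (prj u (η (x + iv z))) = _
    rw [hσp x z, hηp x z]
  have hXu : ∀ x, ∑ i, u i * X x i = 0 := by
    intro x
    have h1 := prj_orth hu (contr α v x)
    have h2 := prj_orth hu (η x)
    have h3 : ∀ i, u i * X x i = len (prj u (η x)) * (u i * prj u (contr α v x) i) +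
        len (prj u (contr α v x)) * (u i * prj u (η x) i) := by
      intro i
      simp only [X, bis, Pi.add_apply, Pi.smul_apply, smul_eq_mul]
      ring
    rw [Finset.sum_congr rfl fun i _ => h3 i, Finset.sum_add_distrib, ← Finset.mul_sum,
      ← Finset.mul_sum, h1, h2]
    ring
  have hXpos : ∀ x, 0 < ∑ i, contr α v x i * X x i ∧ 0 < ∑ i, η x i * X x i := by
    intro x
    have h := bis_spec (ha x) (hb x) (hX0 x)
    rw [prj_pair _ _ (hXu x), prj_pair _ _ (hXu x)] at h
    exact h
  -- from the dual field to `X`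
  have hlin : Hom (fun x => Om s v (dualField α v x)) (fun x => Om s v (X x)) := by
    have h1 := Hom_of_indep hs v (fun t x => (1 - t) • dualField α v x + t • X x)
      (by
        have hc0 := (continuous_dualField hc hα hd v).comp (continuous_snd (X := ℝ) (Y := V4))
        have hc1 := hXc.comp (continuous_snd (X := ℝ) (Y := V4))
        exact ((continuous_const.sub continuous_fst).smul hc0).add (continuous_fst.smul hc1))
      (fun t _ x z => by
        show (1 - t) • dualField α v (x + iv z) + t • X (x + iv z) = _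
        rw [per_dualField hp v x z, hXp x z])
      (fun t ht x => by
        refine indep_of_pos (σ := contr α v x) ?_ (hσv x) hv
        have h2 : ∑ i, contr α v x i * ((1 - t) • dualField α v x + t • X x) i =
            (1 - t) * (∑ i, v i ^ 2) + t * ∑ i, contr α v x i * X x i := by
          rw [← hσX0 x, Finset.mul_sum, Finset.mul_sum, ← Finset.sum_add_distrib]
          refine Finset.sum_congr rfl fun i _ => ?_
          simp only [Pi.add_apply, Pi.smul_apply, smul_eq_mul]
          ring
        rw [h2]
        have h3 := sq_pos_of_ne hv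
        have h4 := (hXpos x).1
        have h5 : 0 ≤ (1 - t) * ∑ i, v i ^ 2 := mul_nonneg (by linarith [ht.2]) h3.le
        rcases eq_or_lt_of_le ht.1 with h6 | h6
        · rw [← h6, sub_zero, one_mul, zero_mul, add_zero]
          exact h3.ne'
        · have h7 : 0 < t * ∑ i, contr α v x i * X x i := mul_pos h6 h4
          linarith)
    have e0 : (fun x => Om s v ((fun (t : ℝ) x => (1 - t) • dualField α v x + t • X x) 0 x)) =
        fun x => Om s v (dualField α v x) := by
      funext x
      simp
    have e1 : (fun x => Om s v ((fun (t : ℝ) x => (1 - t) • dualField α v x + t • X x) 1 x)) =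
        fun x => Om s v (X x) := by
      funext x
      simp
    rw [e0, e1] at h1
    exact h1
  -- the closed form as a field of linear forms
  let E : V4 → V4 →L[ℝ] ℝ := fun x =>
    ∑ i, (η x i) • (ContinuousLinearMap.proj (R := ℝ) (φ := fun _ : Fin 4 => ℝ) i)
  have hEapp : ∀ x y, E x y = ∑ i, η x i * y i := by
    intro x y
    simp [E]
  have hηd : ∀ i x, HasFDerivAt (fun y => η y i) (fderiv ℝ (fun y => η y i) x) x := fun i x =>
    (((hη i).differentiable (by simp)) x).hasFDerivAt
  have hEd : ∀ x, HasFDerivAt E (∑ i, (fderiv ℝ (fun y => η y i) x).smulRight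
      (ContinuousLinearMap.proj (R := ℝ) (φ := fun _ : Fin 4 => ℝ) i)) x := by
    intro x
    refine HasFDerivAt.fun_sum fun i _ => ?_
    have h := (hηd i x).smul_const
      (ContinuousLinearMap.proj (R := ℝ) (φ := fun _ : Fin 4 => ℝ) i)
    exact h
  have hsym : ∀ x y z, fderiv ℝ E x y z = fderiv ℝ E x z y := by
    intro x y z
    rw [(hEd x).fderiv]
    have key : ∀ y z : V4, (∑ i, (fderiv ℝ (fun y => η y i) x).smulRight
        (ContinuousLinearMap.proj (R := ℝ) (φ := fun _ : Fin 4 => ℝ) i)) y z =
        ∑ i, ∑ j, (y j * fderiv ℝ (fun y => η y i) x (Pi.single j 1)) * z i := by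
      intro y z
      rw [_root_.sum_apply, _root_.sum_apply]
      refine Finset.sum_congr rfl fun i _ => ?_
      have hy : y = ∑ j, y j • (Pi.single j 1 : V4) := by
        funext k
        simp [Finset.sum_apply, Pi.single_apply]
      have h1 : fderiv ℝ (fun y => η y i) x y =
          ∑ j, y j * fderiv ℝ (fun y => η y i) x (Pi.single j 1) := by
        conv_lhs => rw [hy]
        rw [map_sum]
        refine Finset.sum_congr rfl fun j _ => ?_
        rw [map_smul, smul_eq_mul]
      rw [ContinuousLinearMap.smulRight_apply, _root_.smul_apply, h1,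
        ContinuousLinearMap.proj_apply, smul_eq_mul, ← Finset.sum_mul]
    rw [key y z, key z y, Finset.sum_comm]
    refine Finset.sum_congr rfl fun i _ => Finset.sum_congr rfl fun j _ => ?_
    rw [hcl x i j]
    ring
  obtain ⟨F, hF⟩ := convex_univ.exists_forall_hasFDerivAt_of_fderiv_symmetric isOpen_univ
    (fun x _ => (hEd x).differentiableAt.differentiableWithinAt) (fun x _ => hsym x)
  have hEc : Continuous E := continuous_iff_continuousAt.2 fun x => (hEd x).continuousAt
  have hT : Trans u X F E :=
    { Xc := hXc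
      Xp := hXp
      Xw := hXu
      ηc := hEc
      ηp := fun x z => by
        show ∑ i, _ = ∑ i, _
        rw [hηp x z]
      der := fun x => hF x (mem_univ x)
      pos := fun x => by
        rw [hEapp]
        exact (hXpos x).2 }
  obtain ⟨p, hp0, hup, hH⟩ := hT.hom hs huv
  exact (((Hom_dual hs hc hα hp hd hpf hv).trans hlin).trans hH).trans
    (Om_hom_ref hs (Om_det_indep hs (indep_of_ker huv hup hp0)))

end Pool.Agent.H.MP_df7994_gt
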