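import Pool.Agent.H.MP_df7994_gt.Euler

/-!
# Periodic functions whose high directional derivatives are small (MP_df7994_gt)
-/

set_option autoImplicit false

namespace Pool.Agent.H.MP_df7994_gt

open Set Topology Filter

variable {E : Type*} [NormedAddCommGroup E] [NormedSpace ℝ E]

/-- the `n`-th derivative in the direction `v` -/
noncomputable def dd (n : ℕ) (F : V4 → E) (v y : V4) : E := iteratedFDeriv ℝ n F y (fun _ => v)

theorem per_iter {F : V4 → E} (hp : Per F) (n : ℕ) : Per (iteratedFDeriv ℝ n F) := by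
  intro x l
  have h1 : (fun z => F (z + iv l)) = F := by
    funext z
    exact hp z l
  have h2 := iteratedFDeriv_comp_add_right (𝕜 := ℝ) (f := F) n (iv l) x
  rw [h1] at h2
  exact h2.symm

theorem cont_iter {F : V4 → E} (hs : ContDiff ℝ ((⊤ : ℕ∞) : WithTop ℕ∞) F) (n : ℕ) :
    Continuous (iteratedFDeriv ℝ n F) :=
  hs.continuous_iteratedFDeriv (by exact_mod_cast le_top)

theorem iter_bdd {F : V4 → E} (hs : ContDiff ℝ ((⊤ : ℕ∞) : WithTop ℕ∞) F) (hp : Per F) (n : ℕ) :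
    ∃ B : ℝ, 0 ≤ B ∧ ∀ y, ‖iteratedFDeriv ℝ n F y‖ ≤ B := by
  obtain ⟨B, hB⟩ := per_bdd (f := fun y => ‖iteratedFDeriv ℝ n F y‖) (cont_iter hs n).norm
    (fun x l => by simp only [per_iter hp n x l])
  refine ⟨B, (abs_nonneg _).trans (hB 0), fun y => ?_⟩
  have := hB y
  rwa [abs_of_nonneg (norm_nonneg _)] at this

theorem dd_bdd {F : V4 → E} (hs : ContDiff ℝ ((⊤ : ℕ∞) : WithTop ℕ∞) F) (hp : Per F) (n : ℕ)
    (v : V4) : ∃ B : ℝ, ∀ y, ‖dd n F v y‖ ≤ B := by
  obtain ⟨B, _, hB⟩ := iter_bdd hs hp n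
  refine ⟨B * ‖v‖ ^ n, fun y => ?_⟩
  unfold dd
  refine (ContinuousMultilinearMap.le_opNorm _ _).trans ?_
  rw [Finset.prod_const, Finset.card_univ, Fintype.card_fin]
  exact mul_le_mul_of_nonneg_right (hB y) (by positivity)

theorem dd_deriv {F : V4 → E} (hs : ContDiff ℝ ((⊤ : ℕ∞) : WithTop ℕ∞) F) (n : ℕ) (v y : V4)
    (t : ℝ) : HasDerivAt (fun t : ℝ => dd n F v (y + t • v)) (dd (n + 1) F v (y + t • v)) t := by
  have h1 : DifferentiableAt ℝ (iteratedFDeriv ℝ n F) (y + t • v) :=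
    (hs.differentiable_iteratedFDeriv (by exact_mod_cast WithTop.coe_lt_top n)) _
  have h2 : HasDerivAt (fun t : ℝ => y + t • v) v t := by
    have := ((hasDerivAt_id t).smul_const v).const_add y
    simpa using this
  have h3 := h1.hasFDerivAt.comp_hasDerivAt t h2
  have h4 : HasDerivAt (fun t : ℝ => iteratedFDeriv ℝ n F (y + t • v) (fun _ => v))
      ((fderiv ℝ (iteratedFDeriv ℝ n F) (y + t • v) v) (fun _ => v)) t := by
    have h5 := (ContinuousMultilinearMap.apply ℝ (fun _ : Fin n => V4) E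
      (fun _ => v)).hasFDerivAt (x := iteratedFDeriv ℝ n F (y + t • v))
    exact h5.comp_hasDerivAt t h3
  have h6 : dd (n + 1) F v (y + t • v) =
      (fderiv ℝ (iteratedFDeriv ℝ n F) (y + t • v) v) (fun _ => v) := by
    unfold dd
    rw [iteratedFDeriv_succ_apply_left]
    rfl
  rw [h6]
  exact h4

theorem dd_zero_down {F : V4 → E} (hs : ContDiff ℝ ((⊤ : ℕ∞) : WithTop ℕ∞) F) (hp : Per F)
    (v : V4) (n : ℕ) (h : ∀ y, dd (n + 2) F v y = 0) : ∀ y, dd (n + 1) F v y = 0 := by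
  intro y
  -- constant along the line
  have h1 : ∀ t : ℝ, dd (n + 1) F v (y + t • v) = dd (n + 1) F v y := by
    intro t
    have hd : Differentiable ℝ fun t : ℝ => dd (n + 1) F v (y + t • v) := fun t =>
      (dd_deriv hs (n + 1) v y t).differentiableAt
    have h0 : ∀ t, deriv (fun t : ℝ => dd (n + 1) F v (y + t • v)) t = 0 := fun t => by
      rw [(dd_deriv hs (n + 1) v y t).deriv]
      exact h _
    have := is_const_of_deriv_eq_zero hd h0 t 0
    simpa using this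
  -- the previous derivative is linear
  have h2 : ∀ t : ℝ, dd n F v (y + t • v) = dd n F v y + t • dd (n + 1) F v y := by
    intro t
    have hder : ∀ t : ℝ, HasDerivAt (fun t : ℝ => dd n F v (y + t • v) - t • dd (n + 1) F v y)
        (dd (n + 1) F v (y + t • v) - (1 : ℝ) • dd (n + 1) F v y) t := fun t =>
      (dd_deriv hs n v y t).sub ((hasDerivAt_id t).smul_const _)
    have hd : Differentiable ℝ fun t : ℝ => dd n F v (y + t • v) - t • dd (n + 1) F v y :=
      fun t => (hder t).differentiableAt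
    have h0 : ∀ t, deriv (fun t : ℝ => dd n F v (y + t • v) - t • dd (n + 1) F v y) t = 0 :=
      fun t => by
        rw [(hder t).deriv, h1 t, one_smul, sub_self]
    have h3 := is_const_of_deriv_eq_zero hd h0 t 0
    simp only [zero_smul, add_zero, sub_zero] at h3
    rw [← h3]
    abel
  obtain ⟨B, hB⟩ := dd_bdd hs hp n v
  by_contra hne
  have hpos : 0 < ‖dd (n + 1) F v y‖ := norm_pos_iff.2 hne
  have hB0 : 0 ≤ B := (norm_nonneg _).trans (hB y)
  set t : ℝ := (2 * B + 1) / ‖dd (n + 1) F v y‖ with ht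
  have ht0 : 0 < t := by positivity
  have h4 : ‖t • dd (n + 1) F v y‖ ≤ 2 * B := by
    have h5 : t • dd (n + 1) F v y = dd n F v (y + t • v) - dd n F v y := by
      rw [h2 t]
      abel
    rw [h5]
    refine (norm_sub_le _ _).trans ?_
    linarith [hB (y + t • v), hB y]
  rw [norm_smul, Real.norm_of_nonneg ht0.le, ht, div_mul_cancel₀ _ hpos.ne'] at h4
  linarith

theorem dd_one_zero {F : V4 → E} (hs : ContDiff ℝ ((⊤ : ℕ∞) : WithTop ℕ∞) F) (hp : Per F)
    (v : V4) (n : ℕ) (h : ∀ y, dd (n + 1) F v y = 0) : ∀ y, dd 1 F v y = 0 := by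
  induction n with
  | zero => exact h
  | succ n ih => exact ih (dd_zero_down hs hp v n h)

/-- a periodic smooth function with vanishing `(n+1)`-st derivative in the direction `v` is
invariant in the direction `v` -/
theorem inv_of_dd_zero {F : V4 → E} (hs : ContDiff ℝ ((⊤ : ℕ∞) : WithTop ℕ∞) F) (hp : Per F)
    (v : V4) (n : ℕ) (h : ∀ y, dd (n + 1) F v y = 0) (y : V4) (t : ℝ) : F (y + t • v) = F y := by
  have h1 := dd_one_zero hs hp v n h
  have h0 : ∀ y, dd 0 F v y = F y := fun y => by simp [dd]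
  have hd : Differentiable ℝ fun t : ℝ => dd 0 F v (y + t • v) := fun t =>
    (dd_deriv hs 0 v y t).differentiableAt
  have hz : ∀ t, deriv (fun t : ℝ => dd 0 F v (y + t • v)) t = 0 := fun t => by
    rw [(dd_deriv hs 0 v y t).deriv]
    exact h1 _
  have h2 := is_const_of_deriv_eq_zero hd hz t 0
  simp only [h0, zero_smul, add_zero] at h2
  exact h2

theorem dd_smul (n : ℕ) (F : V4 → E) (c : ℝ) (v y : V4) :
    dd n F (c • v) y = c ^ n • dd n F v y := by
  unfold dd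
  have h1 : (fun _ : Fin n => c • v) = fun i => (fun _ : Fin n => c) i • (fun _ : Fin n => v) i :=
    rfl
  rw [h1, ContinuousMultilinearMap.map_smul_univ]
  simp

/-- If there are arbitrarily long vectors `w` with `‖∂_w^{n+1} F‖ ≤ K ‖w‖^n` then `F` is
invariant in some direction. -/
theorem direction_of_long {F : V4 → E} (hs : ContDiff ℝ ((⊤ : ℕ∞) : WithTop ℕ∞) F) (hp : Per F)
    (n : ℕ) (K : ℝ) (h : ∀ N : ℕ, ∃ w : V4, (N : ℝ) < ‖w‖ ∧ ∀ y, ‖dd (n + 1) F w y‖ ≤ K * ‖w‖ ^ n) :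
    ∃ v : V4, v ≠ 0 ∧ ∀ y (t : ℝ), F (y + t • v) = F y := by
  have h' : ∀ N : ℕ, ∃ w : V4, (N : ℝ) + 1 < ‖w‖ ∧ ∀ y, ‖dd (n + 1) F w y‖ ≤ K * ‖w‖ ^ n :=
    fun N => by
      obtain ⟨w, h1, h2⟩ := h (N + 1)
      exact ⟨w, by push_cast at h1; exact h1, h2⟩
  choose w hw hb using h'
  have hwpos : ∀ N, 0 < ‖w N‖ := fun N => by
    have : (0 : ℝ) ≤ N := Nat.cast_nonneg N
    linarith [hw N]
  have hu : ∀ N, ‖w N‖⁻¹ • w N ∈ Metric.sphere (0 : V4) 1 := fun N => by
    rw [mem_sphere_zero_iff_norm, norm_smul, norm_inv, norm_norm,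
      inv_mul_cancel₀ (hwpos N).ne']
  obtain ⟨v, hv, φ, hφ, hlim⟩ := (isCompact_sphere (0 : V4) 1).tendsto_subseq hu
  have hv1 : ‖v‖ = 1 := mem_sphere_zero_iff_norm.1 hv
  refine ⟨v, fun h0 => by rw [h0, norm_zero] at hv1; exact zero_ne_one hv1, ?_⟩
  apply inv_of_dd_zero hs hp v n
  intro y
  have hbd : ∀ N, ‖dd (n + 1) F (‖w N‖⁻¹ • w N) y‖ ≤ |K| * ((N : ℝ) + 1)⁻¹ := by
    intro N
    rw [dd_smul, norm_smul, norm_pow, norm_inv, norm_norm]
    have h1 := hb N y
    have h2 : (‖w N‖⁻¹) ^ (n + 1) * ‖dd (n + 1) F (w N) y‖ ≤ (‖w N‖⁻¹) ^ (n + 1) *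
        (|K| * ‖w N‖ ^ n) :=
      mul_le_mul_of_nonneg_left (h1.trans (mul_le_mul_of_nonneg_right (le_abs_self K)
        (by positivity))) (by have := hwpos N; positivity)
    refine h2.trans ?_
    have h3 : (‖w N‖⁻¹) ^ (n + 1) * (|K| * ‖w N‖ ^ n) = |K| * ‖w N‖⁻¹ := by
      have h4 : (‖w N‖⁻¹) ^ n * ‖w N‖ ^ n = 1 := by
        rw [← mul_pow, inv_mul_cancel₀ (hwpos N).ne', one_pow]
      rw [pow_succ]
      linear_combination (|K| * ‖w N‖⁻¹) * h4
    rw [h3]
    refine mul_le_mul_of_nonneg_left ?_ (abs_nonneg K)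
    exact inv_anti₀ (by positivity) (hw N).le
  have hc : Continuous fun u : V4 => dd (n + 1) F u y := by
    unfold dd
    exact (ContinuousMultilinearMap.cont _).comp (continuous_pi fun _ => continuous_id)
  have hl1 : Tendsto (fun N => dd (n + 1) F (‖w (φ N)‖⁻¹ • w (φ N)) y) atTop
      (𝓝 (dd (n + 1) F v y)) := (hc.tendsto v).comp hlim
  have hl2 : Tendsto (fun N => dd (n + 1) F (‖w (φ N)‖⁻¹ • w (φ N)) y) atTop (𝓝 0) := by
    rw [tendsto_zero_iff_norm_tendsto_zero]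
    have hl3 : Tendsto (fun N : ℕ => |K| * ((φ N : ℝ) + 1)⁻¹) atTop (𝓝 0) := by
      have h5 : Tendsto (fun N : ℕ => |K| * ((N : ℝ) + 1)⁻¹) atTop (𝓝 0) := by
        have h6 := (tendsto_one_div_add_atTop_nhds_zero_nat (𝕜 := ℝ)).const_mul |K|
        simpa [one_div] using h6
      exact h5.comp hφ.tendsto_atTop
    exact squeeze_zero (fun _ => norm_nonneg _) (fun N => hbd (φ N)) hl3
  exact tendsto_nhds_unique hl1 hl2

end Pool.Agent.H.MP_df7994_gt
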