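import Pool.Agent.H.MP_df7994_gt.Basic

/-!
# A nondegenerate form is homotopic to the one built from a dual vector field (MP_df7994_gt)
-/

set_option autoImplicit false

namespace Pool.Agent.H.MP_df7994_gt

open Set Topology

/-- the vector `A X` -/
def mv (A : M4) (X : V4) : V4 := fun i => ∑ j, A i j * X j

theorem pf_line {s : ℝ} (hs : s = 1 ∨ s = -1) (a b c d e f t : ℝ) (X : V4) :
    pf ((1 - t) • sk a b c d e f + t • Om s (mv (sk a b c d e f) X) X) =
      (1 - t) ^ 2 * pf (sk a b c d e f) + t * (1 - t) * (pf (sk a b c d e f) * ∑ i, X i ^ 2 +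
        s * ∑ i, mv (sk a b c d e f) X i ^ 2) +
      t ^ 2 * (s * ((∑ i, mv (sk a b c d e f) X i ^ 2) * ∑ i, X i ^ 2)) := by
  rcases hs with rfl | rfl <;>
  · simp [pf, Om, sd, sk, mv, Fin.sum_univ_four, Matrix.add_apply, Matrix.smul_apply]
    ring

theorem mv_orth {A : M4} (h : ∀ i j, A i j = - A j i) (X : V4) : ∑ i, mv A X i * X i = 0 := by
  rw [eq_sk h]
  simp [mv, sk, Fin.sum_univ_four]
  ring

theorem line_pos {p N Y t : ℝ} (hp : 0 < p) (hN : 0 < N) (hY : 0 < Y) (ht0 : 0 ≤ t) (ht1 : t ≤ 1) :
    0 < (1 - t) ^ 2 * p + t * (1 - t) * (p * Y + N) + t ^ 2 * (N * Y) := by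
  have h1 : 0 ≤ (1 - t) ^ 2 * p := by positivity
  have h2 : 0 ≤ t * (1 - t) * (p * Y + N) :=
    mul_nonneg (mul_nonneg ht0 (by linarith)) (by positivity)
  have h3 : 0 ≤ t ^ 2 * (N * Y) := by positivity
  rcases eq_or_lt_of_le ht0 with h | h
  · rw [← h]
    have : 0 < (1 - (0 : ℝ)) ^ 2 * p := by simpa using hp
    simpa using hp
  · have h4 : 0 < t ^ 2 * (N * Y) := by positivity
    linarith

theorem continuous_dualField {α : V4 → M4} (hc : Continuous α) (hα : ∀ x i j, α x i j = - α x j i)
    (hd : ∀ x, (α x).det ≠ 0) (w : V4) : Continuous (dualField α w) := by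
  have hp : ∀ x, pf (α x) ≠ 0 := by
    intro x h
    have := hd x
    rw [det_skew (hα x), h] at this
    norm_num at this
  have he : ∀ i j, Continuous fun x => α x i j := fun i j => hc.matrix_elem i j
  have hpc : Continuous fun x => pf (α x) := by
    unfold pf
    exact (((he 0 1).mul (he 2 3)).sub ((he 0 2).mul (he 1 3))).add ((he 0 3).mul (he 1 2))
  have hs : Continuous fun x => sk (α x 2 3) (-(α x 1 3)) (α x 1 2) (α x 0 3) (-(α x 0 2))
      (α x 0 1) := continuous_sk (he _ _) (he _ _).neg (he _ _) (he _ _) (he _ _).neg (he _ _)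
  refine continuous_pi fun i => ?_
  unfold dualField
  refine Continuous.div ?_ hpc hp
  exact (continuous_finsetSum _ fun j _ => (hs.matrix_elem i j).mul continuous_const).neg

theorem per_dualField {α : V4 → M4} (hp : Per α) (w : V4) : Per (dualField α w) := by
  intro x v
  unfold dualField
  rw [hp x v]

/-- the dual vector field does not vanish and is orthogonal to `w` -/
theorem dualField_ne {α : V4 → M4} (hα : ∀ x i j, α x i j = - α x j i) {x : V4}
    (hd : (α x).det ≠ 0) {w : V4} (hw : w ≠ 0) : dualField α w x ≠ 0 := by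
  intro h
  apply hw
  funext i
  have := dualField_spec hα hd w i
  rw [h] at this
  simpa using this.symm

theorem dualField_orth {α : V4 → M4} (hα : ∀ x i j, α x i j = - α x j i) {x : V4}
    (hd : (α x).det ≠ 0) (w : V4) : ∑ i, w i * dualField α w x i = 0 := by
  have h1 := mv_orth (hα x) (dualField α w x)
  have h2 : mv (α x) (dualField α w x) = w := funext fun i => dualField_spec hα hd w i
  rwa [h2] at h1

/-- a nondegenerate form is homotopic to the one built from its dual vector field -/
theorem Hom_dual {s : ℝ} (hs : s = 1 ∨ s = -1) {α : V4 → M4} (hc : Continuous α)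
    (hα : ∀ x i j, α x i j = - α x j i) (hp : Per α) (hd : ∀ x, (α x).det ≠ 0)
    (hpf : ∀ x, 0 < s * pf (α x)) {w : V4} (hw : w ≠ 0) :
    Hom α (fun x => Om s w (dualField α w x)) := by
  have hX := continuous_dualField hc hα hd w
  have hskew : ∀ (t : ℝ) x i j, ((1 - t) • α x + t • Om s w (dualField α w x)) i j =
      - ((1 - t) • α x + t • Om s w (dualField α w x)) j i := by
    intro t x i j
    simp only [Matrix.add_apply, Matrix.smul_apply, smul_eq_mul]
    rw [hα x i j, Om_skew s w _ i j]
    ring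
  refine ⟨fun t x => (1 - t) • α x + t • Om s w (dualField α w x), ?_, ?_, ?_,
    fun t _ x i j => hskew t x i j, fun t _ x v => ?_, fun t ht x => ?_⟩
  · refine Continuous.add ?_ ?_
    · exact (continuous_const.sub continuous_fst).smul (hc.comp continuous_snd)
    · exact continuous_fst.smul (continuous_Om s w (hX.comp continuous_snd))
  · funext x; simp
  · funext x; simp
  · show (1 - t) • α (x + iv v) + t • Om s w (dualField α w (x + iv v)) = _
    rw [hp x v, per_dualField hp w x v]
  · rw [det_skew (hskew t x)]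
    have e1 : α x = sk (α x 0 1) (α x 0 2) (α x 0 3) (α x 1 2) (α x 1 3) (α x 2 3) := eq_sk (hα x)
    have e2 : mv (α x) (dualField α w x) = w := funext fun i => dualField_spec hα (hd x) w i
    have h := pf_line hs (α x 0 1) (α x 0 2) (α x 0 3) (α x 1 2) (α x 1 3) (α x 2 3) t
      (dualField α w x)
    rw [← e1, e2] at h
    refine pow_ne_zero 2 fun h0 => ?_
    rw [h0] at h
    have hpos := line_pos (hpf x) (sq_pos_of_ne hw) (sq_pos_of_ne (dualField_ne hα (hd x) hw))
      ht.1 ht.2
    have hss : s * s = 1 := by rcases hs with rfl | rfl <;> norm_num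
    have h2 : s * ((1 - t) ^ 2 * pf (α x) + t * (1 - t) * (pf (α x) * ∑ i, dualField α w x i ^ 2 +
        s * ∑ i, w i ^ 2) + t ^ 2 * (s * ((∑ i, w i ^ 2) * ∑ i, dualField α w x i ^ 2))) =
        (1 - t) ^ 2 * (s * pf (α x)) + t * (1 - t) * (s * pf (α x) * ∑ i, dualField α w x i ^ 2 +
        (s * s) * ∑ i, w i ^ 2) +
        t ^ 2 * ((s * s) * (∑ i, w i ^ 2) * ∑ i, dualField α w x i ^ 2) := by ring
    rw [← h, mul_zero, hss] at h2
    simp only [one_mul] at h2
    linarith

end Pool.Agent.H.MP_df7994_gt
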