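import Pool.Agent.H.MP_df7994_gt.Dual

/-!
# Displacement by Euler polygons (MP_df7994_gt)

A nowhere zero periodic vector field on which some closed 1-form is positive is homotopic, through
nowhere zero periodic vector fields orthogonal to `w`, to a constant one: follow Euler polygons.
-/

set_option autoImplicit false

namespace Pool.Agent.H.MP_df7994_gt

open Set Topology Filter

/-- the unit cube -/
def cube : Set V4 := Icc 0 1

theorem isCompact_cube : IsCompact cube := isCompact_Icc

theorem exists_cube (x : V4) : ∃ y ∈ cube, ∃ v : Fin 4 → ℤ, x = y + iv v := by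
  refine ⟨fun i => Int.fract (x i), ⟨fun i => Int.fract_nonneg _, fun i => (Int.fract_lt_one _).le⟩,
    fun i => ⌊x i⌋, ?_⟩
  funext i
  exact (Int.fract_add_floor (x i)).symm

theorem per_min {f : V4 → ℝ} (hc : Continuous f) (hp : Per f) (h0 : ∀ x, 0 < f x) :
    ∃ δ : ℝ, 0 < δ ∧ ∀ x, δ ≤ f x := by
  obtain ⟨y, hy, hmin⟩ := isCompact_cube.exists_isMinOn ⟨0, by simp [cube]⟩ hc.continuousOn
  refine ⟨f y, h0 y, fun x => ?_⟩
  obtain ⟨z, hz, v, rfl⟩ := exists_cube x
  rw [hp]
  exact hmin hz

theorem per_bdd {f : V4 → ℝ} (hc : Continuous f) (hp : Per f) : ∃ B : ℝ, ∀ x, |f x| ≤ B := by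
  obtain ⟨B, hB⟩ := isCompact_cube.exists_bound_of_continuousOn hc.continuousOn
  refine ⟨B, fun x => ?_⟩
  obtain ⟨z, hz, v, rfl⟩ := exists_cube x
  rw [hp]
  exact hB z hz

/-- `F` is a primitive of the closed periodic 1-form `η`, which is positive on the periodic vector
field `X`, in the kernel of `w` -/
structure Trans (w : V4) (X : V4 → V4) (F : V4 → ℝ) (η : V4 → V4 →L[ℝ] ℝ) : Prop where
  Xc : Continuous X
  Xp : Per X
  Xw : ∀ x, ∑ i, w i * X x i = 0
  ηc : Continuous η
  ηp : Per η
  der : ∀ x, HasFDerivAt F (η x) x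
  pos : ∀ x, 0 < η x (X x)

variable {w : V4} {X : V4 → V4} {F : V4 → ℝ} {η : V4 → V4 →L[ℝ] ℝ}

theorem Trans.step (h : Trans w X F η) : ∃ ε δ : ℝ, 0 < ε ∧ 0 < δ ∧ ∀ x, ∀ s ∈ Icc (0 : ℝ) ε,
    δ * s ≤ F (x + s • X x) - F x := by
  obtain ⟨δ, hδ, hmin⟩ := per_min (f := fun x => η x (X x)) (h.ηc.clm_apply h.Xc)
    (fun x v => by simp only [h.ηp x v, h.Xp x v]) h.pos
  -- uniform step
  have hcont : Continuous fun p : ℝ × V4 => η (p.2 + p.1 • X p.2) (X p.2) := by
    refine (h.ηc.comp ?_).clm_apply (h.Xc.comp continuous_snd)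
    exact continuous_snd.add (continuous_fst.smul (h.Xc.comp continuous_snd))
  have hev : ∀ᶠ s in 𝓝 (0 : ℝ), ∀ x ∈ cube, δ / 2 < η (x + s • X x) (X x) := by
    refine isCompact_cube.eventually_forall_of_forall_eventually fun x _ => ?_
    have h1 : δ / 2 < (fun p : ℝ × V4 => η (p.2 + p.1 • X p.2) (X p.2)) (0, x) := by
      show δ / 2 < η (x + (0 : ℝ) • X x) (X x)
      rw [zero_smul, add_zero]
      have := hmin x
      linarith
    exact hcont.continuousAt.eventually (lt_mem_nhds h1)
  obtain ⟨ε, hε, hball⟩ := Metric.eventually_nhds_iff.1 hev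
  have hall : ∀ x, ∀ s ∈ Icc (0 : ℝ) (ε / 2), δ / 2 ≤ η (x + s • X x) (X x) := by
    intro x s hs
    obtain ⟨z, hz, v, rfl⟩ := exists_cube x
    have hs' : dist s 0 < ε := by
      rw [Real.dist_eq, sub_zero, abs_of_nonneg hs.1]
      linarith [hs.2]
    have h1 := (hball hs' z hz).le
    have h2 : z + iv v + s • X (z + iv v) = (z + s • X z) + iv v := by
      rw [h.Xp]
      abel
    rw [h2, h.ηp, h.Xp]
    exact h1
  refine ⟨ε / 2, δ / 2, by positivity, by positivity, fun x s hs => ?_⟩
  have hder : ∀ r : ℝ, HasDerivAt (fun r : ℝ => F (x + r • X x)) (η (x + r • X x) (X x)) r := by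
    intro r
    have h1 : HasDerivAt (fun r : ℝ => x + r • X x) (X x) r := by
      have := ((hasDerivAt_id r).smul_const (X x)).const_add x
      simpa using this
    exact (h.der (x + r • X x)).comp_hasDerivAt r h1
  have h1 := Convex.mul_sub_le_image_sub_of_le_deriv (convex_Icc (0 : ℝ) (ε / 2))
    (f := fun r : ℝ => F (x + r • X x))
    (fun r _ => (hder r).continuousAt.continuousWithinAt)
    (fun r _ => (hder r).differentiableAt.differentiableWithinAt) (C := δ / 2)
    (fun r hr => by
      rw [(hder r).deriv]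
      rw [interior_Icc] at hr
      exact hall x r ⟨hr.1.le, hr.2.le⟩) 0 ⟨le_rfl, by positivity⟩ s hs hs.1
  simpa using h1

/-- the increments of `F` are a linear function up to a bounded one -/
theorem Trans.linear (h : Trans w X F η) : ∃ (c : V4) (B : ℝ), ∀ x y : V4,
    F y - F x - B ≤ ∑ i, c i * (y - x) i := by
  have hFc : Continuous F := continuous_iff_continuousAt.2 fun x => (h.der x).continuousAt
  -- increments over integer vectors do not depend on the point
  have hinc : ∀ (v : Fin 4 → ℤ) x, F (x + iv v) - F x = F (iv v) - F 0 := by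
    intro v x
    have hd : ∀ x, HasFDerivAt (fun x => F (x + iv v) - F x) (0 : V4 →L[ℝ] ℝ) x := by
      intro x
      have h1 : HasFDerivAt (fun x => F (x + iv v)) (η (x + iv v)) x := by
        have := (h.der (x + iv v)).comp x ((hasFDerivAt_id x).add_const (iv v))
        rw [ContinuousLinearMap.comp_id] at this
        exact this
      have h2 := h1.sub (h.der x)
      rw [h.ηp, sub_self] at h2
      exact h2
    have h3 := is_const_of_fderiv_eq_zero (𝕜 := ℝ) (f := fun x => F (x + iv v) - F x)
      (fun x => (hd x).differentiableAt) (fun x => (hd x).fderiv) x 0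
    simpa using h3
  let κ : (Fin 4 → ℤ) →+ ℝ :=
    { toFun := fun v => F (iv v) - F 0
      map_zero' := by
        have : iv 0 = 0 := by funext i; simp [iv]
        simp [this]
      map_add' := fun v u => by
        have e : iv (v + u) = iv v + iv u := by funext i; simp [iv]
        have := hinc u (iv v)
        rw [e]
        linarith }
  let c : V4 := fun i => κ (Pi.single i 1)
  have hκ : ∀ v : Fin 4 → ℤ, κ v = ∑ i, c i * (iv v) i := by
    intro v
    have e : v = ∑ i, v i • (Pi.single i 1 : Fin 4 → ℤ) := by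
      funext j
      simp [Finset.sum_apply, Pi.single_apply]
    conv_lhs => rw [e]
    rw [map_sum]
    refine Finset.sum_congr rfl fun i _ => ?_
    rw [map_zsmul, zsmul_eq_mul, mul_comm]
    rfl
  have hfp : Per fun x => F x - ∑ i, c i * x i := by
    intro x v
    have h1 := hinc v x
    have h2 : κ v = F (iv v) - F 0 := rfl
    have h3 : ∑ i, c i * (x + iv v) i = ∑ i, c i * x i + ∑ i, c i * (iv v) i := by
      rw [← Finset.sum_add_distrib]
      refine Finset.sum_congr rfl fun i _ => ?_
      rw [Pi.add_apply]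
      ring
    show F (x + iv v) - ∑ i, c i * (x + iv v) i = F x - ∑ i, c i * x i
    rw [h3, ← hκ, h2]
    linarith
  have hfc : Continuous fun x : V4 => F x - ∑ i, c i * x i :=
    hFc.sub (continuous_finsetSum _ fun i _ => continuous_const.mul (continuous_apply i))
  obtain ⟨B, hB⟩ := per_bdd hfc hfp
  refine ⟨c, 2 * B, fun x y => ?_⟩
  have h1 := abs_le.1 (hB x)
  have h2 := abs_le.1 (hB y)
  have h3 : ∑ i, c i * (y - x) i = ∑ i, c i * y i - ∑ i, c i * x i := by
    rw [← Finset.sum_sub_distrib]
    refine Finset.sum_congr rfl fun i _ => ?_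
    rw [Pi.sub_apply]
    ring
  rw [h3]
  linarith [h1.1, h1.2, h2.1, h2.2]

/-- one Euler step -/
noncomputable def eul (ε : ℝ) (X : V4 → V4) (x : V4) : V4 := x + ε • X x

theorem continuous_eul (ε : ℝ) (hX : Continuous X) : Continuous (eul ε X) :=
  continuous_id.add (hX.const_smul ε)

theorem eul_iter_per (ε : ℝ) (hX : Per X) (k : ℕ) (x : V4) (v : Fin 4 → ℤ) :
    (eul ε X)^[k] (x + iv v) = (eul ε X)^[k] x + iv v := by
  induction k generalizing x with
  | zero => rfl
  | succ k ih =>
    rw [Function.iterate_succ_apply, Function.iterate_succ_apply]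
    have : eul ε X (x + iv v) = eul ε X x + iv v := by
      unfold eul
      rw [hX]
      abel
    rw [this, ih]

theorem eul_iter_orth (ε : ℝ) (hX : ∀ x, ∑ i, w i * X x i = 0) (k : ℕ) (x : V4) :
    ∑ i, w i * ((eul ε X)^[k] x - x) i = 0 := by
  induction k with
  | zero => simp
  | succ k ih =>
    rw [Function.iterate_succ_apply']
    have h1 : ∀ i, w i * (eul ε X ((eul ε X)^[k] x) - x) i =
        w i * ((eul ε X)^[k] x - x) i + ε * (w i * X ((eul ε X)^[k] x) i) := by
      intro i
      simp only [eul, Pi.sub_apply, Pi.add_apply, Pi.smul_apply, smul_eq_mul]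
      ring
    rw [Finset.sum_congr rfl fun i _ => h1 i, Finset.sum_add_distrib, ih, ← Finset.mul_sum, hX]
    ring

theorem eul_iter_mono {ε δ : ℝ} (hε : 0 < ε)
    (hst : ∀ x, ∀ s ∈ Icc (0 : ℝ) ε, δ * s ≤ F (x + s • X x) - F x) (k : ℕ) (x : V4) :
    k * (δ * ε) ≤ F ((eul ε X)^[k] x) - F x := by
  induction k with
  | zero => simp
  | succ k ih =>
    rw [Function.iterate_succ_apply']
    have h1 := hst ((eul ε X)^[k] x) ε ⟨hε.le, le_rfl⟩
    have h2 : F (eul ε X ((eul ε X)^[k] x)) =
        F ((eul ε X)^[k] x + ε • X ((eul ε X)^[k] x)) := rfl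
    rw [h2]
    push_cast
    linarith

/-- **Displacement.** The form built from `X` is homotopic to a constant one. -/
theorem Trans.hom (h : Trans w X F η) {s : ℝ} (hs : s = 1 ∨ s = -1) {v : V4}
    (hw : ∑ i, w i * v i ≠ 0) :
    ∃ p : V4, p ≠ 0 ∧ ∑ i, w i * p i = 0 ∧
      Hom (fun x => Om s v (X x)) (fun _ => Om s v p) := by
  obtain ⟨ε, δ, hε, hδ, hst⟩ := h.step
  obtain ⟨c, B, hlin⟩ := h.linear
  have hX0 : ∀ x, X x ≠ 0 := fun x h0 => by
    have := h.pos x
    rw [h0, map_zero] at this
    exact lt_irrefl _ this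
  have hEc : ∀ k, Continuous (eul ε X)^[k] := fun k => (continuous_eul ε h.Xc).iterate k
  -- the displacements
  have hchain : ∀ k : ℕ, Hom (fun x => Om s v (X x))
      (fun x => Om s v ((eul ε X)^[k + 1] x - x)) := by
    intro k
    induction k with
    | zero =>
      have h1 := Hom_of_path hs hw (fun t x => ((1 - t) + t * ε) • X x)
        ((((continuous_const.sub continuous_fst).add (continuous_fst.mul continuous_const))).smul
          (h.Xc.comp continuous_snd))
        (fun t _ x u => by
          show ((1 - t) + t * ε) • X (x + iv u) = _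
          rw [h.Xp])
        (fun t ht x => by
          refine smul_ne_zero ?_ (hX0 x)
          have h2 : 0 ≤ 1 - t := by linarith [ht.2]
          have h3 : 0 ≤ t * ε := mul_nonneg ht.1 hε.le
          rcases eq_or_lt_of_le ht.1 with h4 | h4
          · rw [← h4]; norm_num
          · have : 0 < t * ε := mul_pos h4 hε
            linarith)
        (fun t _ x => by
          have h2 : ∀ i, w i * (((1 - t) + t * ε) • X x) i = ((1 - t) + t * ε) * (w i * X x i) := by
            intro i
            rw [Pi.smul_apply, smul_eq_mul]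
            ring
          rw [Finset.sum_congr rfl fun i _ => h2 i, ← Finset.mul_sum, h.Xw, mul_zero])
      have e0 : (fun x => Om s v ((fun t x => ((1 - t) + t * ε) • X x) (0 : ℝ) x)) =
          fun x => Om s v (X x) := by
        funext x
        simp
      have e1 : (fun x => Om s v ((fun t x => ((1 - t) + t * ε) • X x) (1 : ℝ) x)) =
          fun x => Om s v ((eul ε X)^[0 + 1] x - x) := by
        funext x
        simp [eul]
      rw [e0, e1] at h1
      exact h1
    | succ k ih =>
      refine ih.trans ?_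
      have h1 := Hom_of_path hs hw
        (fun t x => (eul ε X)^[k + 1] x + (t * ε) • X ((eul ε X)^[k + 1] x) - x)
        (by
          have hc := (hEc (k + 1)).comp (continuous_snd (X := ℝ) (Y := V4))
          exact (hc.add ((continuous_fst.mul continuous_const).smul (h.Xc.comp hc))).sub
            continuous_snd)
        (fun t _ x u => by
          show (eul ε X)^[k + 1] (x + iv u) + (t * ε) • X ((eul ε X)^[k + 1] (x + iv u)) -
            (x + iv u) = _
          rw [eul_iter_per ε h.Xp, h.Xp]
          abel_nf)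
        (fun t ht x => by
          intro h0
          have h2 := eul_iter_mono hε hst (k + 1) x
          have h3 := hst ((eul ε X)^[k + 1] x) (t * ε)
            ⟨mul_nonneg ht.1 hε.le, by nlinarith [ht.2]⟩
          have h4 : (eul ε X)^[k + 1] x + (t * ε) • X ((eul ε X)^[k + 1] x) = x :=
            sub_eq_zero.1 h0
          rw [h4] at h3
          have h5 : 0 ≤ δ * (t * ε) := mul_nonneg hδ.le (mul_nonneg ht.1 hε.le)
          have h6 : 0 < ((k + 1 : ℕ) : ℝ) * (δ * ε) := by positivity
          linarith)
        (fun t _ x => by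
          have h2 : ∀ i, w i * ((eul ε X)^[k + 1] x + (t * ε) • X ((eul ε X)^[k + 1] x) - x) i =
              w i * ((eul ε X)^[k + 1] x - x) i +
                (t * ε) * (w i * X ((eul ε X)^[k + 1] x) i) := by
            intro i
            simp only [Pi.sub_apply, Pi.add_apply, Pi.smul_apply, smul_eq_mul]
            ring
          rw [Finset.sum_congr rfl fun i _ => h2 i, Finset.sum_add_distrib,
            eul_iter_orth ε h.Xw, ← Finset.mul_sum, h.Xw]
          ring)
      have e0 : (fun x => Om s v ((fun (t : ℝ) x => (eul ε X)^[k + 1] x +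
          (t * ε) • X ((eul ε X)^[k + 1] x) - x) 0 x)) =
          fun x => Om s v ((eul ε X)^[k + 1] x - x) := by
        funext x
        simp
      have e1 : (fun x => Om s v ((fun (t : ℝ) x => (eul ε X)^[k + 1] x +
          (t * ε) • X ((eul ε X)^[k + 1] x) - x) 1 x)) =
          fun x => Om s v ((eul ε X)^[k + 1 + 1] x - x) := by
        funext x
        show Om s v ((eul ε X)^[k + 1] x + (1 * ε) • X ((eul ε X)^[k + 1] x) - x) = _
        rw [Function.iterate_succ_apply' (eul ε X) (k + 1), one_mul]
        rfl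
      rw [e0, e1] at h1
      exact h1
  -- a large number of steps
  obtain ⟨k, hk⟩ := exists_nat_gt (B / (δ * ε))
  have hBk : B < ((k + 1 : ℕ) : ℝ) * (δ * ε) := by
    have hpos : 0 < δ * ε := mul_pos hδ hε
    rw [div_lt_iff₀ hpos] at hk
    push_cast
    linarith
  have hcpos : ∀ x, 0 < ∑ i, c i * ((eul ε X)^[k + 1] x - x) i := by
    intro x
    have h1 := eul_iter_mono hε hst (k + 1) x
    have h2 := hlin x ((eul ε X)^[k + 1] x)
    linarith
  refine ⟨(eul ε X)^[k + 1] 0 - 0, fun h0 => ?_, eul_iter_orth ε h.Xw (k + 1) 0,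
    (hchain k).trans ?_⟩
  · have := hcpos 0
    rw [h0] at this
    simp at this
  · have h1 := Hom_of_path hs hw
      (fun t x => (1 - t) • ((eul ε X)^[k + 1] x - x) + t • ((eul ε X)^[k + 1] 0 - 0))
      (by
        have hc := (hEc (k + 1)).comp (continuous_snd (X := ℝ) (Y := V4))
        exact ((continuous_const.sub continuous_fst).smul (hc.sub continuous_snd)).add
          (continuous_fst.smul continuous_const))
      (fun t _ x u => by
        show (1 - t) • ((eul ε X)^[k + 1] (x + iv u) - (x + iv u)) + _ = _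
        rw [eul_iter_per ε h.Xp]
        congr 2
        abel)
      (fun t ht x => by
        intro h0
        have h2 : ∑ i, c i * ((1 - t) • ((eul ε X)^[k + 1] x - x) +
            t • ((eul ε X)^[k + 1] 0 - 0)) i =
            (1 - t) * ∑ i, c i * ((eul ε X)^[k + 1] x - x) i +
              t * ∑ i, c i * ((eul ε X)^[k + 1] 0 - 0) i := by
          rw [Finset.mul_sum, Finset.mul_sum, ← Finset.sum_add_distrib]
          refine Finset.sum_congr rfl fun i _ => ?_
          simp only [Pi.add_apply, Pi.smul_apply, smul_eq_mul]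
          ring
        rw [h0] at h2
        simp only [Pi.zero_apply, mul_zero, Finset.sum_const_zero] at h2
        have h3 := hcpos x
        have h4 := hcpos 0
        have h5 : 0 ≤ (1 - t) * ∑ i, c i * ((eul ε X)^[k + 1] x - x) i :=
          mul_nonneg (by linarith [ht.2]) h3.le
        rcases eq_or_lt_of_le ht.1 with h6 | h6
        · rw [← h6] at h2
          simp only [sub_zero, one_mul, zero_mul, add_zero] at h2
          linarith
        · have h7 : 0 < t * ∑ i, c i * ((eul ε X)^[k + 1] 0 - 0) i := mul_pos h6 h4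
          linarith)
      (fun t _ x => by
        have h2 : ∑ i, w i * ((1 - t) • ((eul ε X)^[k + 1] x - x) +
            t • ((eul ε X)^[k + 1] 0 - 0)) i =
            (1 - t) * ∑ i, w i * ((eul ε X)^[k + 1] x - x) i +
              t * ∑ i, w i * ((eul ε X)^[k + 1] 0 - 0) i := by
          rw [Finset.mul_sum, Finset.mul_sum, ← Finset.sum_add_distrib]
          refine Finset.sum_congr rfl fun i _ => ?_
          simp only [Pi.add_apply, Pi.smul_apply, smul_eq_mul]
          ring
        rw [h2, eul_iter_orth ε h.Xw, eul_iter_orth ε h.Xw]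
        ring)
    have e0 : (fun x => Om s v ((fun (t : ℝ) x => (1 - t) • ((eul ε X)^[k + 1] x - x) +
        t • ((eul ε X)^[k + 1] 0 - 0)) 0 x)) = fun x => Om s v ((eul ε X)^[k + 1] x - x) := by
      funext x
      simp
    have e1 : (fun x => Om s v ((fun (t : ℝ) x => (1 - t) • ((eul ε X)^[k + 1] x - x) +
        t • ((eul ε X)^[k + 1] 0 - 0)) 1 x)) =
        fun _ => Om s v ((eul ε X)^[k + 1] 0 - 0) := by
      funext x
      simp
    rw [e0, e1] at h1
    exact h1

end Pool.Agent.H.MP_df7994_gt
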