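import Pool.Agent.H.MP_df7994_gt.Const

/-!
# The two classes of symplectic forms (MP_df7994_gt)
-/

set_option autoImplicit false

namespace Pool.Agent.H.MP_df7994_gt

open Set Topology

/-- the contraction is orthogonal to the vector -/
theorem contr_orth {α : V4 → M4} (hα : ∀ x i j, α x i j = - α x j i) (v x : V4) :
    ∑ j, contr α v x j * v j = 0 := by
  have h1 := mv_orth (hα x) v
  have h2 : ∑ j, contr α v x j * v j = -∑ i, mv (α x) v i * v i := by
    unfold contr mv
    rw [← Finset.sum_neg_distrib]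
    refine Finset.sum_congr rfl fun j _ => ?_
    rw [← neg_mul, ← Finset.sum_neg_distrib]
    congr 1
    refine Finset.sum_congr rfl fun i _ => ?_
    rw [hα x i j]
    ring
  rw [h2, h1, neg_zero]

/-- the contraction of a nondegenerate form does not vanish -/
theorem contr_ne {α : V4 → M4} (hα : ∀ x i j, α x i j = - α x j i) (hd : ∀ x, (α x).det ≠ 0)
    {v : V4} (hv : v ≠ 0) (x : V4) : contr α v x ≠ 0 := by
  intro h0
  have h1 : ∑ j, contr α v x j * dualField α v x j = ∑ i, v i ^ 2 := by
    have h1 : ∀ j, contr α v x j * dualField α v x j =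
        ∑ i, v i * (α x i j * dualField α v x j) := by
      intro j
      unfold contr
      rw [Finset.sum_mul]
      refine Finset.sum_congr rfl fun i _ => ?_
      ring
    rw [Finset.sum_congr rfl fun j _ => h1 j, Finset.sum_comm]
    refine Finset.sum_congr rfl fun i _ => ?_
    rw [← Finset.mul_sum, dualField_spec hα (hd x) v i]
    ring
  rw [h0] at h1
  simp only [Pi.zero_apply, zero_mul, Finset.sum_const_zero] at h1
  exact (sq_pos_of_ne hv).ne h1

/-- the coefficient of `w ∧ η ∧ A` on `dx₀∧dx₁∧dx₂∧dx₃` -/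
def wedge (w η : V4) (A : M4) : ℝ :=
  (w 0 * η 1 - w 1 * η 0) * A 2 3 - (w 0 * η 2 - w 2 * η 0) * A 1 3 +
    (w 0 * η 3 - w 3 * η 0) * A 1 2 + (w 1 * η 2 - w 2 * η 1) * A 0 3 -
    (w 1 * η 3 - w 3 * η 1) * A 0 2 + (w 2 * η 3 - w 3 * η 2) * A 0 1

theorem wedge_contr {A : M4} (h : ∀ i j, A i j = - A j i) (v : V4) :
    wedge v (fun j => ∑ i, v i * A i j) A = (∑ i, v i ^ 2) * pf A := by
  have e00 : A 0 0 = 0 := by linarith [h 0 0]
  have e11 : A 1 1 = 0 := by linarith [h 1 1]
  have e22 : A 2 2 = 0 := by linarith [h 2 2]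
  have e33 : A 3 3 = 0 := by linarith [h 3 3]
  have e10 := h 1 0
  have e20 := h 2 0
  have e30 := h 3 0
  have e21 := h 2 1
  have e31 := h 3 1
  have e32 := h 3 2
  simp only [wedge, pf, Fin.sum_univ_four, e00, e11, e22, e33, e10, e20, e30, e21, e31, e32]
  ring

theorem wedge_lin (w η σ : V4) (A : M4) (l m : ℝ) :
    wedge w η A + l * wedge w σ A - wedge w (fun j => η j + l * σ j - m * w j) A = 0 := by
  simp only [wedge]
  ring

/-- If `w ∧ η ∧ A` has the sign of the Pfaffian of `A` then no `η + l ι_w A` with `l ≥ 0` is a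
multiple of `w`. -/
theorem no_multiple {A : M4} (h : ∀ i j, A i j = - A j i) {w η : V4}
    (hpos : 0 < wedge w η A * pf A) {l : ℝ} (hl : 0 ≤ l) (m : ℝ) :
    ∃ j, η j + l * ∑ i, w i * A i j ≠ m * w j := by
  by_contra hcon
  push Not at hcon
  have h1 := wedge_lin w η (fun j => ∑ i, w i * A i j) A l m
  have h2 : (fun j => η j + l * ∑ i, w i * A i j - m * w j) = (0 : V4) := by
    funext j
    show η j + l * ∑ i, w i * A i j - m * w j = 0
    rw [hcon j, sub_self]
  have h3 : wedge w (0 : V4) A = 0 := by simp [wedge]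
  have h4 : wedge w η A + l * wedge w (fun j => ∑ i, w i * A i j) A = 0 := by
    have h5 : wedge w (fun j => η j + l * ∑ i, w i * A i j - m * w j) A = 0 := by
      rw [h2, h3]
    linarith
  rw [wedge_contr h] at h4
  have h6 : wedge w η A = -(l * ((∑ i, w i ^ 2) * pf A)) := by linarith
  rw [h6] at hpos
  have h7 : 0 ≤ l * (∑ i, w i ^ 2) * (pf A * pf A) :=
    mul_nonneg (mul_nonneg hl (Finset.sum_nonneg fun i _ => sq_nonneg _)) (mul_self_nonneg _)
  nlinarith

/-- the contraction of a closed form with an invariant direction is closed -/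
theorem contr_closed {α : V4 → M4} {v : V4}
    (hs : ∀ i j, ContDiff ℝ ((⊤ : ℕ∞) : WithTop ℕ∞) (fun x => α x i j))
    (hα : ∀ x i j, α x i j = - α x j i)
    (hcl : ∀ x i j k, fderiv ℝ (fun y => α y j k) x (Pi.single i 1) +
      fderiv ℝ (fun y => α y k i) x (Pi.single j 1) +
      fderiv ℝ (fun y => α y i j) x (Pi.single k 1) = 0)
    (hv : ∀ x (t : ℝ), α (x + t • v) = α x) (x : V4) (i j : Fin 4) :
    fderiv ℝ (fun y => contr α v y j) x (Pi.single i 1) =
      fderiv ℝ (fun y => contr α v y i) x (Pi.single j 1) := by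
  have hd : ∀ a b, HasFDerivAt (fun y => α y a b) (fderiv ℝ (fun y => α y a b) x) x := fun a b =>
    (((hs a b).differentiable (by simp)) x).hasFDerivAt
  have hc : ∀ b, fderiv ℝ (fun y => contr α v y b) x =
      ∑ a, v a • fderiv ℝ (fun y => α y a b) x := by
    intro b
    refine HasFDerivAt.fderiv ?_
    show HasFDerivAt (fun y => ∑ a, v a * α y a b) _ x
    refine HasFDerivAt.fun_sum fun a _ => ?_
    exact (hd a b).const_mul (v a)
  -- the derivative along v vanishes
  have hinv : ∀ a b, ∑ k, v k * fderiv ℝ (fun y => α y a b) x (Pi.single k 1) = 0 := by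
    intro a b
    have h1 : HasDerivAt (fun t : ℝ => α (x + t • v) a b)
        (fderiv ℝ (fun y => α y a b) x v) 0 := by
      have h2 : HasDerivAt (fun t : ℝ => x + t • v) v 0 := by
        have := ((hasDerivAt_id (0 : ℝ)).smul_const v).const_add x
        simpa using this
      have h3 : HasFDerivAt (fun y => α y a b) (fderiv ℝ (fun y => α y a b) x)
          (x + (0 : ℝ) • v) := by
        rw [zero_smul, add_zero]
        exact hd a b
      exact h3.comp_hasDerivAt (0 : ℝ) h2
    have h4 : (fun t : ℝ => α (x + t • v) a b) = fun _ => α x a b := by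
      funext t
      rw [hv]
    rw [h4] at h1
    have h5 := h1.unique (hasDerivAt_const (0 : ℝ) (α x a b))
    have hvs : v = ∑ k, v k • (Pi.single k 1 : V4) := by
      funext k
      simp [Finset.sum_apply, Pi.single_apply]
    rw [hvs, map_sum] at h5
    rw [← h5]
    refine Finset.sum_congr rfl fun k _ => ?_
    rw [map_smul, smul_eq_mul]
  have hneg : ∀ a b k, fderiv ℝ (fun y => α y a b) x (Pi.single k 1) =
      - fderiv ℝ (fun y => α y b a) x (Pi.single k 1) := by
    intro a b k
    have h1 : (fun y => α y a b) = fun y => -(α y b a) := by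
      funext y
      exact hα y a b
    rw [h1, fderiv_fun_neg]
    simp
  rw [hc j, hc i]
  have e1 : (∑ a, v a • fderiv ℝ (fun y => α y a j) x) (Pi.single i 1) =
      ∑ a, v a * fderiv ℝ (fun y => α y a j) x (Pi.single i 1) := by
    simp
  have e2 : (∑ a, v a • fderiv ℝ (fun y => α y a i) x) (Pi.single j 1) =
      ∑ a, v a * fderiv ℝ (fun y => α y a i) x (Pi.single j 1) := by
    simp
  rw [e1, e2]
  have key : ∑ a, (v a * fderiv ℝ (fun y => α y a j) x (Pi.single i 1) -
      v a * fderiv ℝ (fun y => α y a i) x (Pi.single j 1)) =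
      ∑ a, -(v a * fderiv ℝ (fun y => α y j i) x (Pi.single a 1)) := by
    refine Finset.sum_congr rfl fun a _ => ?_
    have h1 := hcl x a j i
    have h2 := hneg i a j
    rw [h2] at h1
    linear_combination v a * h1
  rw [Finset.sum_sub_distrib, Finset.sum_neg_distrib, hinv j i, neg_zero] at key
  exact sub_eq_zero.1 key

end Pool.Agent.H.MP_df7994_gt
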